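import Pool.Agent.TH975.EP.Strong

/-! Exponential polynomials on cubes: the linear subgroup theorem. -/

namespace Pool.Agent.TH975.EP

open Polynomial Module

/-- the space of linear combinations of `1` and of logarithms of algebraic numbers -/
noncomputable abbrev LL : Submodule QB ℂ := Pool.Agent.H301R2.SSE.Lt

/-- **Core**: on large cubes some value of `ev C Q` is not a linear form in `1` and logarithms,
given rows which are not degenerate. -/
theorem core0 (C : Finset ℝ) (Q : ℝ → ℂ[X]) {N r : ℕ} (hr : r = ∑ c ∈ C, wt (Q c))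
    (u : Fin (r + 1) → ℝ) (hu : ∀ j, 0 < u j) (v : Fin N → ℝ) (hv : ∀ p, 0 < v p)
    (hL : ∀ j p, ev C Q (u j * v p) ∈ LL)
    (hrank : ∀ m : Fin (r + 1) → ℂ, (∀ j, IsAlgebraic ℚ (m j)) → m ≠ 0 → 3 * (r + 1) ^ 2 <
      finrank QB (Submodule.span QB (Set.range fun p => ev C (cmb m u Q) (v p)))) : False := by
  classical
  let I : Finset (Σ _ : ℝ, ℕ) := C.sigma fun c => Finset.range (wt (Q c))
  have hI : I.card = r := by
    rw [hr, Finset.card_sigma]
    simp
  let e : I ≃ Fin r := I.equivFinOfCardEq hI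
  let x : Fin r → Fin (r + 1) → ℂ := fun ρ j => (shf (u j) Q (e.symm ρ).1.1).coeff (e.symm ρ).1.2
  let y : Fin r → Fin N → ℂ := fun ρ p =>
    (((v p) ^ (e.symm ρ).1.1 : ℝ) : ℂ) * ((Real.log (v p) : ℝ) : ℂ) ^ (e.symm ρ).1.2
  have huv : ∀ j p, ∑ ρ, x ρ j * y ρ p = ev C Q (u j * v p) := by
    intro j p
    rw [← ev_shf C Q (hu j) (hv p)]
    have h1 : ∑ ρ, x ρ j * y ρ p = ∑ i : I, (shf (u j) Q i.1.1).coeff i.1.2 *
        ((((v p) ^ i.1.1 : ℝ) : ℂ) * ((Real.log (v p) : ℝ) : ℂ) ^ i.1.2) := by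
      rw [← Equiv.sum_comp e.symm]
    rw [h1, Finset.sum_coe_sort I (fun i => (shf (u j) Q i.1).coeff i.2 *
        ((((v p) ^ i.1 : ℝ) : ℂ) * ((Real.log (v p) : ℝ) : ℂ) ^ i.2)), Finset.sum_sigma]
    unfold ev
    apply Finset.sum_congr rfl
    intro c _
    rw [eval_wt (wt_shf (u j) Q c), Finset.sum_mul]
    apply Finset.sum_congr rfl
    intro i _
    ring
  choose S hS h using fun j p => Pool.Agent.H301R2.SSE.Lt_rep (hL j p)
  let T : Finset ℂ := Finset.univ.biUnion (fun ij : Fin (r + 1) × Fin N => S ij.1 ij.2)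
  have hT : ∀ a ∈ T, IsAlgebraic ℚ a := by
    intro a ha
    obtain ⟨ij, -, h1⟩ := Finset.mem_biUnion.mp ha
    exact hS _ _ a h1
  let K : IntermediateField ℚ ℂ := IntermediateField.adjoin ℚ (T : Set ℂ)
  have : FiniteDimensional ℚ K := by
    apply IntermediateField.finiteDimensional_adjoin
    intro x hx
    exact (hT x hx).isIntegral
  have hKalg : ∀ a : K, IsAlgebraic ℚ (a : ℂ) := fun a =>
    (Algebra.IsAlgebraic.isAlgebraic (R := ℚ) a).algebraMap (A := ℂ)
  choose β hβ hlog using fun j p => h j p K (fun a ha => by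
    apply IntermediateField.subset_adjoin ℚ (T : Set ℂ)
    exact Finset.mem_biUnion.mpr ⟨(j, p), Finset.mem_univ _, ha⟩)
  choose w hw1 hw2 using fun j p => Pool.Agent.H301R2.SSE.span_K K (hlog j p)
  refine SG.strong_core K x y β w (fun j p => hKalg ⟨β j p, hβ j p⟩) hw1 ?_ ?_
  · intro j p
    rw [huv, ← hw2 j p]; ring
  · intro m hm hm0
    have h1 : (fun p => ∑ j, m j * ∑ ρ, x ρ j * y ρ p) = fun p => ev C (cmb m u Q) (v p) := by
      funext p
      rw [ev_cmb C m u Q hu (hv p)]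
      apply Finset.sum_congr rfl
      intro j _
      rw [huv]
    rw [h1]
    exact hrank m hm hm0

end Pool.Agent.TH975.EP
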