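import Pool.Agent.TH975.EP.Core0

/-! Irrational exponents. -/

namespace Pool.Agent.TH975.EP

open Polynomial Module

theorem Good.sub {c : ℝ} {l l' : List (ℝ × ℝ)} (h : Good c l) (hl : ∀ e ∈ l', e ∈ l) : Good c l' :=
  fun e he => h e (hl e he)

/-- the number of sides needed -/
def KK (r : ℕ) : ℕ := (r + 1) + KR r (3 * (r + 1) ^ 2)

theorem core_a (C : Finset ℝ) (Q : ℝ → ℂ[X]) {c0 : ℝ} (hc0 : c0 ∈ C) (hQ : Q c0 ≠ 0) :
    ∀ l, Good c0 l → KK (W C Q) ≤ l.length → ∀ a : ℝ, 0 < a →
      ∃ v ∈ vals l a, ev C Q v ∉ LL := by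
  classical
  obtain ⟨r, hr⟩ : ∃ r, r = ∑ c ∈ C, wt (Q c) := ⟨_, rfl⟩
  obtain ⟨K, hKdef⟩ : ∃ K, K = KR (W C Q) (3 * (r + 1) ^ 2) := ⟨_, rfl⟩
  have hK := rank_a C hc0 (W C Q) (3 * (r + 1) ^ 2)
  rw [← hKdef] at hK
  intro l hl hlen' a ha
  have hlen : r + K ≤ l.length := by
    have hrW : W C Q = r := hr.symm
    unfold KK at hlen'
    rw [hrW] at hlen' hKdef
    rw [← hKdef] at hlen'
    omega
  by_contra hcon
  push Not at hcon
  obtain ⟨l1, hl1⟩ : ∃ l1, l1 = l.take r := ⟨_, rfl⟩
  obtain ⟨l2, hl2⟩ : ∃ l2, l2 = l.drop r := ⟨_, rfl⟩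
  have hl12 : l1 ++ l2 = l := by rw [hl1, hl2]; exact List.take_append_drop r l
  have hlen1 : l1.length = r := by rw [hl1, List.length_take]; omega
  have hlen2 : K ≤ l2.length := by rw [hl2, List.length_drop]; omega
  have hG1 : Good c0 l1 := hl.sub fun e he => by
    rw [← hl12]; exact List.mem_append_left _ he
  have hG2 : Good c0 l2 := hl.sub fun e he => by
    rw [← hl12]; exact List.mem_append_right _ he
  -- rows
  let f : Fin (vals l1 1).length → ℂ := fun i => ((((vals l1 1).get i) ^ c0 : ℝ) : ℂ)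
  have hVf : FiniteDimensional QB (Submodule.span QB (Set.range f)) :=
    FiniteDimensional.span_of_finite QB (Set.finite_range f)
  have hrow := growth (c := c0) (lam := 1) one_ne_zero l1 hG1 1 one_pos
    (Submodule.span QB (Set.range f)) (fun v hv => by
      rw [one_mul]
      obtain ⟨i, rfl⟩ := List.get_of_mem hv
      exact Submodule.subset_span ⟨i, rfl⟩)
  rw [hlen1] at hrow
  obtain ⟨g, hg⟩ := sel f hrow
  let u : Fin (r + 1) → ℝ := fun j => (vals l1 1).get (g j)
  have humem : ∀ j, u j ∈ vals l1 1 := fun j => List.get_mem _ _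
  have hu : ∀ j, 0 < u j := fun j => vals_pos hG1.pos one_pos _ (humem j)
  let v : Fin (vals l2 a).length → ℝ := fun p => (vals l2 a).get p
  have hvmem : ∀ p, v p ∈ vals l2 a := fun p => List.get_mem _ _
  have hv : ∀ p, 0 < v p := fun p => vals_pos hG2.pos ha _ (hvmem p)
  refine core0 C Q hr u hu v hv ?_ ?_
  · intro j p
    apply hcon
    have := mem_vals_append l1 l2 (humem j) (hvmem p)
    rwa [one_mul, hl12] at this
  · intro m hma hm
    have hVf' : FiniteDimensional QB (Submodule.span QB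
        (Set.range fun p => ev C (cmb m u Q) (v p))) :=
      FiniteDimensional.span_of_finite QB (Set.finite_range _)
    refine hK (cmb m u Q) ?_ ?_ l2 hG2 hlen2 a ha _ ?_
    · exact Finset.sum_le_sum fun c _ => wt_cmb m u Q c
    · intro h0
      have h1 := cmb_coeff m u Q c0
      rw [h0, coeff_zero] at h1
      rcases mul_eq_zero.1 h1.symm with h2 | h2
      · apply hm
        rw [Fintype.linearIndependent_iff] at hg
        have h3 := hg (fun j => (⟨m j, mem_QB.2 (hma j)⟩ : QB)) (by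
          rw [← h2]
          apply Finset.sum_congr rfl
          intro j _
          rw [Algebra.smul_def]
          rfl)
        funext j
        exact congrArg (fun z : QB => (z : ℂ)) (h3 j)
      · exact hQ (leadingCoeff_eq_zero.1 h2)
    · intro w hw
      obtain ⟨p, rfl⟩ := List.get_of_mem hw
      exact Submodule.subset_span ⟨p, rfl⟩

end Pool.Agent.TH975.EP
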