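import Pool.Agent.TH975.EP.CoreA

/-! Rational exponents and polynomials of degree at least two. -/

namespace Pool.Agent.TH975.EP

open Polynomial Module

/-- the difference of the logarithms along a side -/
noncomputable def ld (e : ℝ × ℝ) : ℂ := ((Real.log e.2 : ℝ) : ℂ) - ((Real.log e.1 : ℝ) : ℂ)

/-- cubes with algebraic sides whose logarithms are linearly independent -/
def GB (l : List (ℝ × ℝ)) : Prop :=
  (∀ e ∈ l, 0 < e.1 ∧ 0 < e.2 ∧ IsAlgebraic ℚ e.1 ∧ IsAlgebraic ℚ e.2) ∧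
    LinearIndependent QB (fun i : Fin l.length => ld (l.get i))

theorem GB.tail {e : ℝ × ℝ} {l : List (ℝ × ℝ)} (h : GB (e :: l)) : GB l := by
  refine ⟨fun e' he' => h.1 e' (List.mem_cons_of_mem _ he'), ?_⟩
  exact h.2.comp (fun i : Fin l.length => (i.succ : Fin (e :: l).length)) (Fin.succ_injective _)

theorem GB.head {e : ℝ × ℝ} {l : List (ℝ × ℝ)} (h : GB (e :: l)) : 0 < e.1 ∧ 0 < e.2 ∧ e.1 ≠ e.2 := by
  obtain ⟨h1, h2, -, -⟩ := h.1 e (List.mem_cons_self ..)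
  refine ⟨h1, h2, fun hne => ?_⟩
  have h3 := h.2.ne_zero (0 : Fin (l.length + 1))
  apply h3
  show ld e = 0
  unfold ld
  rw [hne, sub_self]

theorem GB.pos {l : List (ℝ × ℝ)} (h : GB l) : ∀ e ∈ l, 0 < e.1 ∧ 0 < e.2 :=
  fun e he => ⟨(h.1 e he).1, (h.1 e he).2.1⟩

theorem vals_alg {l : List (ℝ × ℝ)} (h : ∀ e ∈ l, 0 < e.1 ∧ 0 < e.2 ∧ IsAlgebraic ℚ e.1 ∧
    IsAlgebraic ℚ e.2) : ∀ a : ℝ, ∀ v ∈ vals l a, ∃ w : ℝ, 0 < w ∧ IsAlgebraic ℚ w ∧ v = a * w := by
  induction l with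
  | nil =>
    intro a v hv
    simp only [vals, List.mem_singleton] at hv
    exact ⟨1, one_pos, isAlgebraic_one, by rw [hv, mul_one]⟩
  | cons e l ih =>
    intro a v hv
    obtain ⟨h1, h2, h3, h4⟩ := h e (List.mem_cons_self ..)
    simp only [vals, List.mem_append] at hv
    rcases hv with hv | hv
    · obtain ⟨w, hw, hwa, rfl⟩ := ih (fun e' he' => h e' (List.mem_cons_of_mem _ he')) _ v hv
      exact ⟨e.1 * w, mul_pos h1 hw, h3.mul hwa, by ring⟩
    · obtain ⟨w, hw, hwa, rfl⟩ := ih (fun e' he' => h e' (List.mem_cons_of_mem _ he')) _ v hv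
      exact ⟨e.2 * w, mul_pos h2 hw, h4.mul hwa, by ring⟩

theorem vals_side : ∀ (l : List (ℝ × ℝ)) (a : ℝ) (i : Fin l.length),
    ∃ v : ℝ, v * (l.get i).1 ∈ vals l a ∧ v * (l.get i).2 ∈ vals l a := by
  intro l
  induction l with
  | nil => intro a i; exact i.elim0
  | cons e l ih =>
    intro a i
    refine Fin.cases ?_ (fun i => ?_) i
    · obtain ⟨v, hv⟩ := vals_nonempty l a
      obtain ⟨h1, h2⟩ := mem_vals_cons (e := e) hv
      refine ⟨v, ?_, ?_⟩
      · rw [mul_comm]; exact h1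
      · rw [mul_comm]; exact h2
    · obtain ⟨v, h1, h2⟩ := ih a i
      refine ⟨e.1 * v, ?_, ?_⟩
      · have := (mem_vals_cons (e := e) h1).1
        rw [mul_assoc]
        exact this
      · have := (mem_vals_cons (e := e) h2).1
        rw [mul_assoc]
        exact this

theorem side_pos {l : List (ℝ × ℝ)} (h : GB l) {a : ℝ} (ha : 0 < a) (i : Fin l.length) {v : ℝ}
    (hv : v * (l.get i).1 ∈ vals l a) : 0 < v := by
  have h1 := vals_pos h.pos ha _ hv
  have h2 := (h.pos _ (List.get_mem l i)).1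
  exact (pos_iff_pos_of_mul_pos h1).2 h2

/-- linear polynomials in the logarithm on a cube -/
theorem growth_log {α β : ℂ} (hα : α ≠ 0) (l : List (ℝ × ℝ)) (hl : GB l) {a : ℝ} (ha : 0 < a)
    (V : Submodule QB ℂ) [FiniteDimensional QB V]
    (hV : ∀ v ∈ vals l a, α * ((Real.log v : ℝ) : ℂ) + β ∈ V) : l.length ≤ finrank QB V := by
  have hmem : ∀ i : Fin l.length, α * ld (l.get i) ∈ V := by
    intro i
    obtain ⟨v, h1, h2⟩ := vals_side l a i
    have hv := side_pos hl ha i h1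
    obtain ⟨h3, h4⟩ := hl.pos _ (List.get_mem l i)
    have h5 := Submodule.sub_mem _ (hV _ h2) (hV _ h1)
    have h6 : α * ((Real.log (v * (l.get i).2) : ℝ) : ℂ) + β -
        (α * ((Real.log (v * (l.get i).1) : ℝ) : ℂ) + β) = α * ld (l.get i) := by
      rw [Real.log_mul hv.ne' h3.ne', Real.log_mul hv.ne' h4.ne']
      unfold ld
      push_cast
      ring
    rwa [h6] at h5
  have hli : LinearIndependent QB (fun i : Fin l.length => (⟨_, hmem i⟩ : V)) := by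
    apply LinearIndependent.of_comp (Submodule.subtype _)
    exact hl.2.map' (mu α) (LinearMap.ker_eq_bot.2 (mu_inj hα))
  have := hli.fintype_card_le_finrank
  simpa using this

theorem rpow_alg {w : ℝ} (hw : 0 < w) (hwa : IsAlgebraic ℚ w) (c : ℚ) :
    IsAlgebraic ℚ (w ^ (c : ℝ)) := by
  have h1 : (w ^ (c : ℝ)) ^ c.den = w ^ c.num := by
    rw [← Real.rpow_natCast, ← Real.rpow_mul hw.le]
    have : (c : ℝ) * (c.den : ℝ) = (c.num : ℝ) := by
      exact_mod_cast Rat.mul_den_eq_num c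
    rw [this, Real.rpow_intCast]
  apply IsAlgebraic.of_pow c.pos
  rw [h1]
  rcases Int.eq_nat_or_neg c.num with ⟨n, hn | hn⟩
  · rw [hn, zpow_natCast]; exact hwa.pow n
  · rw [hn, zpow_neg, zpow_natCast]; exact (hwa.pow n).inv

theorem rpow_QB {w : ℝ} (hw : 0 < w) (hwa : IsAlgebraic ℚ w) (c : ℚ) :
    ((w ^ (c : ℝ) : ℝ) : ℂ) ∈ QB := by
  rw [mem_QB]
  exact (rpow_alg hw hwa c).algebraMap (A := ℂ)

theorem rank_b (C : Finset ℝ) {c0 : ℚ} (hc0 : (c0 : ℝ) ∈ C) :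
    ∀ T s : ℕ, ∀ Q : ℝ → ℂ[X], W C Q ≤ T → 2 ≤ wt (Q c0) → ∀ l, GB l →
      KR T s ≤ l.length → ∀ a : ℝ, 0 < a → ∀ (V : Submodule QB ℂ) [FiniteDimensional QB V],
        (∀ v ∈ vals l a, ev C Q v ∈ V) → s < finrank QB V := by
  intro T s
  refine rank C hc0 1 GB (fun e l h => h.tail) (fun e l h => h.head) ?_ T s
  intro P hP l hl a ha V _ hV
  have hne : P ≠ 0 := fun h => by rw [h, wt_zero] at hP; omega
  rw [wt_of_ne hne] at hP
  have hdeg : P.natDegree = 1 := by omega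
  have h1 : P = Polynomial.C (P.coeff 1) * X + Polynomial.C (P.coeff 0) :=
    eq_X_add_C_of_natDegree_le_one hdeg.le
  have h2 : P.coeff 1 ≠ 0 := by
    rw [← hdeg]; exact leadingCoeff_ne_zero.2 hne
  have hK : ((a ^ (c0 : ℝ) : ℝ) : ℂ) ≠ 0 := by exact_mod_cast (Real.rpow_pos_of_pos ha _).ne'
  refine growth_log (α := ((a ^ (c0 : ℝ) : ℝ) : ℂ) * P.coeff 1)
    (β := ((a ^ (c0 : ℝ) : ℝ) : ℂ) * P.coeff 0) (mul_ne_zero hK h2) l hl ha V ?_
  intro v hv
  obtain ⟨w, hw, hwa, hvw⟩ := vals_alg hl.1 a v hv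
  have h3 := hV v hv
  have h4 : ((w ^ (c0 : ℝ) : ℝ) : ℂ) ≠ 0 := by exact_mod_cast (Real.rpow_pos_of_pos hw _).ne'
  let z : QB := ⟨_, rpow_QB hw hwa c0⟩
  have h5 := V.smul_mem z⁻¹ h3
  have h6 : z⁻¹ • (P.eval ((Real.log v : ℝ) : ℂ) * ((v ^ (c0 : ℝ) : ℝ) : ℂ)) =
      ((a ^ (c0 : ℝ) : ℝ) : ℂ) * P.coeff 1 * ((Real.log v : ℝ) : ℂ) +
        ((a ^ (c0 : ℝ) : ℝ) : ℂ) * P.coeff 0 := by
    rw [Algebra.smul_def]
    have h7 : (algebraMap QB ℂ) z⁻¹ = (((w ^ (c0 : ℝ) : ℝ) : ℂ))⁻¹ := by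
      rw [map_inv₀]; rfl
    rw [h7]
    have h8 : P.eval ((Real.log v : ℝ) : ℂ) = P.coeff 1 * ((Real.log v : ℝ) : ℂ) + P.coeff 0 := by
      conv_lhs => rw [h1]
      simp
    rw [h8]
    have h9 : ((v ^ (c0 : ℝ) : ℝ) : ℂ) = ((a ^ (c0 : ℝ) : ℝ) : ℂ) * ((w ^ (c0 : ℝ) : ℝ) : ℂ) := by
      rw [hvw, Real.mul_rpow ha.le hw.le]; push_cast; ring
    rw [h9]
    field_simp
  rw [← h6]
  exact h5

theorem cmb_coeff' {d : ℕ} (m : Fin d → ℂ) (u : Fin d → ℝ) (Q : ℝ → ℂ[X]) (c : ℝ) {D : ℕ}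
    (hD : (Q c).natDegree = D + 1) :
    (cmb m u Q c).coeff D = (∑ j, m j * (((u j) ^ c : ℝ) : ℂ)) * (Q c).coeff D +
      (∑ j, m j * (((u j) ^ c : ℝ) : ℂ) * ((Real.log (u j) : ℝ) : ℂ)) *
        ((Q c).coeff (D + 1) * (D + 1 : ℕ)) := by
  unfold cmb shf
  rw [finsetSum_coeff, Finset.sum_mul, Finset.sum_mul, ← Finset.sum_add_distrib]
  apply Finset.sum_congr rfl
  intro j _
  rw [coeff_C_mul, coeff_C_mul, sft_coeff _ _ hD]
  ring

theorem GB.left {l l' : List (ℝ × ℝ)} (h : GB (l ++ l')) : GB l := by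
  refine ⟨fun e he => h.1 e (List.mem_append_left _ he), ?_⟩
  have hlen : l.length ≤ (l ++ l').length := by rw [List.length_append]; omega
  have h1 := h.2.comp (fun i : Fin l.length => (Fin.castLE hlen i)) (Fin.castLE_injective hlen)
  convert h1 using 1
  funext i
  simp [List.getElem_append_left]

theorem GB.right {l l' : List (ℝ × ℝ)} : GB (l ++ l') → GB l' := by
  induction l with
  | nil => exact fun h => h
  | cons e l ih => exact fun h => ih (GB.tail h)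

theorem core_b (C : Finset ℝ) (Q : ℝ → ℂ[X]) {c0 : ℚ} (hc0 : (c0 : ℝ) ∈ C)
    (hQ : 2 ≤ (Q c0).natDegree) :
    ∀ l, GB l → KK (W C Q) ≤ l.length → ∀ a : ℝ, 0 < a →
      ∃ v ∈ vals l a, ev C Q v ∉ LL := by
  classical
  obtain ⟨r, hr⟩ : ∃ r, r = ∑ c ∈ C, wt (Q c) := ⟨_, rfl⟩
  obtain ⟨K, hKdef⟩ : ∃ K, K = KR (W C Q) (3 * (r + 1) ^ 2) := ⟨_, rfl⟩
  have hK := rank_b C hc0 (W C Q) (3 * (r + 1) ^ 2)
  rw [← hKdef] at hK
  intro l hl hlen' a ha
  have hlen : r + 1 + K ≤ l.length := by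
    have hrW : W C Q = r := hr.symm
    unfold KK at hlen'
    rw [hrW] at hlen' hKdef
    rw [← hKdef] at hlen'
    omega
  by_contra hcon
  push Not at hcon
  obtain ⟨l1, hl1⟩ : ∃ l1, l1 = l.take (r + 1) := ⟨_, rfl⟩
  obtain ⟨l2, hl2⟩ : ∃ l2, l2 = l.drop (r + 1) := ⟨_, rfl⟩
  have hl12 : l1 ++ l2 = l := by rw [hl1, hl2]; exact List.take_append_drop (r + 1) l
  have hlen1 : l1.length = r + 1 := by rw [hl1, List.length_take]; omega
  have hlen2 : K ≤ l2.length := by rw [hl2, List.length_drop]; omega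
  rw [← hl12] at hl
  have hG1 : GB l1 := hl.left
  have hG2 : GB l2 := hl.right
  -- rows
  let f : Fin (vals l1 1).length → ℂ := fun i => ((Real.log ((vals l1 1).get i) : ℝ) : ℂ)
  have hVf : FiniteDimensional QB (Submodule.span QB (Set.range f)) :=
    FiniteDimensional.span_of_finite QB (Set.finite_range f)
  have hrow := growth_log (α := 1) (β := 0) one_ne_zero l1 hG1 (a := 1) one_pos
    (Submodule.span QB (Set.range f)) (fun v hv => by
      rw [one_mul, add_zero]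
      obtain ⟨i, rfl⟩ := List.get_of_mem hv
      exact Submodule.subset_span ⟨i, rfl⟩)
  rw [hlen1] at hrow
  obtain ⟨g, hg⟩ := sel f hrow
  let u : Fin (r + 1) → ℝ := fun j => (vals l1 1).get (g j)
  have humem : ∀ j, u j ∈ vals l1 1 := fun j => List.get_mem _ _
  have hu : ∀ j, 0 < u j := fun j => vals_pos hG1.pos one_pos _ (humem j)
  have hua : ∀ j, IsAlgebraic ℚ (u j) := by
    intro j
    obtain ⟨w, hw, hwa, h⟩ := vals_alg hG1.1 1 _ (humem j)
    rw [h, one_mul]; exact hwa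
  let v : Fin (vals l2 a).length → ℝ := fun p => (vals l2 a).get p
  have hvmem : ∀ p, v p ∈ vals l2 a := fun p => List.get_mem _ _
  have hv : ∀ p, 0 < v p := fun p => vals_pos hG2.pos ha _ (hvmem p)
  refine core0 C Q hr u hu v hv ?_ ?_
  · intro j p
    apply hcon
    have := mem_vals_append l1 l2 (humem j) (hvmem p)
    rwa [one_mul, hl12] at this
  · intro m hma hm
    have hVf' : FiniteDimensional QB (Submodule.span QB
        (Set.range fun p => ev C (cmb m u Q) (v p))) :=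
      FiniteDimensional.span_of_finite QB (Set.finite_range _)
    refine hK (cmb m u Q) ?_ ?_ l2 hG2 hlen2 a ha _ ?_
    · exact Finset.sum_le_sum fun c _ => wt_cmb m u Q c
    · obtain ⟨D, hD⟩ : ∃ D, (Q c0).natDegree = D + 1 := ⟨(Q c0).natDegree - 1, by omega⟩
      by_contra hlt
      have h0 : wt (cmb m u Q c0) ≤ 1 := by omega
      rw [wt_le_iff, mem_degreeLT, degree_lt_iff_coeff_zero] at h0
      have h1 := cmb_coeff m u Q c0
      rw [h0 _ (by omega)] at h1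
      have hne : Q c0 ≠ 0 := fun h => by rw [h, natDegree_zero] at hQ; omega
      have hlead := leadingCoeff_ne_zero.2 hne
      have h2 := (mul_eq_zero.1 h1.symm).resolve_right hlead
      have h3 := cmb_coeff' m u Q c0 hD
      rw [h0 _ (by omega), h2, zero_mul, zero_add] at h3
      have h4 : (Q c0).coeff (D + 1) ≠ 0 := by rw [← hD]; exact hlead
      have h5 : ((D + 1 : ℕ) : ℂ) ≠ 0 := by exact_mod_cast Nat.succ_ne_zero D
      have h6 := (mul_eq_zero.1 h3.symm).resolve_right (mul_ne_zero h4 h5)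
      apply hm
      rw [Fintype.linearIndependent_iff] at hg
      have h7 := hg (fun j => (⟨m j, mem_QB.2 (hma j)⟩ : QB) * ⟨_, rpow_QB (hu j) (hua j) c0⟩) (by
        rw [← h6]
        apply Finset.sum_congr rfl
        intro j _
        rw [Algebra.smul_def, map_mul]
        rfl)
      funext j
      have h8 := congrArg (fun z : QB => (z : ℂ)) (h7 j)
      have h9 : m j * (((u j) ^ (c0 : ℝ) : ℝ) : ℂ) = 0 := h8
      have h10 : (((u j) ^ (c0 : ℝ) : ℝ) : ℂ) ≠ 0 := by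
        exact_mod_cast (Real.rpow_pos_of_pos (hu j) _).ne'
      exact (mul_eq_zero.1 h9).resolve_right h10
    · intro w hw
      obtain ⟨p, rfl⟩ := List.get_of_mem hw
      exact Submodule.subset_span ⟨p, rfl⟩

end Pool.Agent.TH975.EP
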