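import Pool.Agent.TH975.EP.CoreB
import Pool.Agent.H137R5.TowFam

/-! Rational exponents and polynomials of degree at most one. -/

namespace Pool.Agent.TH975.EP

open Polynomial Module

theorem LL_mul {a z : ℂ} (ha : a ∈ QB) (hz : z ∈ LL) : a * z ∈ LL :=
  Pool.Agent.H301R2.SSE.Lt_mul (mem_QB.1 ha) hz

theorem log_LL {w : ℝ} (hw : 0 < w) (hwa : IsAlgebraic ℚ w) : ((Real.log w : ℝ) : ℂ) ∈ LL := by
  apply Pool.Agent.H137R5.Tow.lt_of
  rw [Real.exp_log hw]
  exact hwa

/-- bad polynomials -/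
def Bd (P : ℂ[X]) : Prop := P.coeff 1 ∉ QB ∨ P.coeff 0 ∉ LL

theorem lin_eq {P : ℂ[X]} (hP : wt P ≤ 2) : P = Polynomial.C (P.coeff 1) * X + Polynomial.C (P.coeff 0) := by
  apply eq_X_add_C_of_natDegree_le_one
  by_cases h : P = 0
  · subst h; simp
  · rw [wt_of_ne h] at hP; omega

theorem dif_lin {A B x y τ : ℂ} {P : ℂ[X]} (hP : wt P ≤ 2) :
    (dif A B x y τ P).coeff 1 = (A - τ * B) * P.coeff 1 ∧
    (dif A B x y τ P).coeff 0 = (A - τ * B) * P.coeff 0 + P.coeff 1 * (A * x - τ * B * y) := by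
  have h1 := lin_eq hP
  generalize P.coeff 1 = β at *
  generalize P.coeff 0 = l at *
  subst h1
  have h2 : ∀ a : ℂ, sft a (Polynomial.C β * X + Polynomial.C l) =
      Polynomial.C β * X + Polynomial.C (β * a + l) := by
    intro a
    unfold sft
    simp only [add_comp, mul_comp, C_comp, X_comp, C_add, C_mul]
    ring
  unfold dif
  rw [h2, h2]
  constructor
  · simp only [coeff_sub, coeff_C_mul, coeff_add, coeff_X_one, mul_one, coeff_C_succ, add_zero]
    ring
  · simp only [coeff_sub, coeff_C_mul, coeff_add, coeff_X_zero, mul_zero, coeff_C_zero, zero_add]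
    ring

theorem Bd.dif {A B x y τ : ℂ} {P : ℂ[X]} (hP : wt P ≤ 2) (hA : A ∈ QB) (hB : B ∈ QB)
    (hτ : τ ∈ QB) (hx : x ∈ LL) (hy : y ∈ LL) (hne : A ≠ τ * B) (h : Bd P) :
    Bd (dif A B x y τ P) := by
  obtain ⟨h1, h0⟩ := dif_lin (A := A) (B := B) (x := x) (y := y) (τ := τ) hP
  have hγ : A - τ * B ∈ QB := sub_mem hA (mul_mem hτ hB)
  have hγ0 : A - τ * B ≠ 0 := sub_ne_zero.2 hne
  by_cases hβ : P.coeff 1 ∈ QB
  · right
    have hl : P.coeff 0 ∉ LL := by
      rcases h with h | h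
      · exact absurd hβ h
      · exact h
    intro hcon
    apply hl
    rw [h0] at hcon
    have h2 : P.coeff 1 * (A * x - τ * B * y) ∈ LL :=
      LL_mul hβ (Submodule.sub_mem _ (LL_mul hA hx) (LL_mul (mul_mem hτ hB) hy))
    have h3 := Submodule.sub_mem _ hcon h2
    rw [add_sub_cancel_right] at h3
    have h4 := LL_mul (inv_mem hγ) h3
    rwa [← mul_assoc, inv_mul_cancel₀ hγ0, one_mul] at h4
  · left
    intro hcon
    apply hβ
    rw [h1] at hcon
    have h4 := mul_mem (inv_mem hγ) hcon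
    rwa [← mul_assoc, inv_mul_cancel₀ hγ0, one_mul] at h4

theorem term_c {β : ℂ} (hβ : β ∉ QB) (y : Fin 3 → ℂ) (hy : LinearIndependent QB y)
    (hyL : ∀ i, y i ∈ LL) (hyβ : ∀ i, β * y i ∈ LL) : False := by
  refine Pool.Agent.H301R2.SSE.strong_six ![1, β] y ?_ ?_ ?_
  · intro a b ha hb h
    simp only [Matrix.cons_val_zero, Matrix.cons_val_one, mul_one] at h
    by_cases hb0 : b = 0
    · rw [hb0, zero_mul, add_zero] at h
      exact ⟨h, hb0⟩
    · exfalso
      apply hβ
      have h1 : β = -a * b⁻¹ := by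
        field_simp
        linear_combination h
      rw [h1]
      exact mul_mem (neg_mem (mem_QB.2 ha)) (inv_mem (mem_QB.2 hb))
  · intro c hc h
    rw [Fintype.linearIndependent_iff] at hy
    have h1 := hy (fun j => ⟨c j, mem_QB.2 (hc j)⟩) (by
      rw [← h]
      apply Finset.sum_congr rfl
      intro j _
      rfl)
    intro j
    have := congrArg (fun z : QB => (z : ℂ)) (h1 j)
    simpa using this
  · intro i j
    fin_cases i
    · simpa using hyL j
    · simpa using hyβ j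

theorem core_c (C : Finset ℝ) {c0 : ℚ} (hc0 : (c0 : ℝ) ∈ C) :
    ∀ T : ℕ, ∀ Q : ℝ → ℂ[X], W C Q ≤ T → (∀ c ∈ C, Q c ≠ 0 → ∃ q : ℚ, (q : ℝ) = c) →
      (∀ c ∈ C, wt (Q c) ≤ 2) → Bd (Q c0) → ∀ l, GB l → T + 3 ≤ l.length → ∀ a : ℝ, 0 < a →
        IsAlgebraic ℚ a → ∃ v ∈ vals l a, ev C Q v ∉ LL := by
  intro T
  induction T with
  | zero =>
    intro Q hW _ _ hbd
    exfalso
    have h1 : wt (Q c0) ≤ W C Q :=
      Finset.single_le_sum (f := fun c => wt (Q c)) (fun _ _ => Nat.zero_le _) hc0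
    have h2 : Q c0 = 0 := wt_eq_zero.1 (by omega)
    rcases hbd with h | h
    · apply h; rw [h2, coeff_zero]; exact QB.zero_mem
    · apply h; rw [h2, coeff_zero]; exact LL.zero_mem
  | succ T ih =>
    intro Q hW hrat hwt hbd l hl hlen a ha haa
    by_cases h : ∃ c1 ∈ C, Q c1 ≠ 0 ∧ c1 ≠ c0
    · obtain ⟨c1, hc1, hQ1, hcase⟩ := h
      obtain ⟨q1, hq1⟩ := hrat c1 hc1 hQ1
      obtain ⟨e, l', rfl⟩ : ∃ e l', l = e :: l' := by
        cases l with
        | nil => simp at hlen
        | cons e l' => exact ⟨e, l', rfl⟩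
      obtain ⟨he1, he2, hne⟩ := hl.head
      obtain ⟨-, -, he1a, he2a⟩ := hl.1 e (List.mem_cons_self ..)
      set τ : ℂ := ((e.2 ^ c1 : ℝ) : ℂ) / ((e.1 ^ c1 : ℝ) : ℂ) with hτ
      have hB : ∀ c : ℝ, ((e.1 ^ c : ℝ) : ℂ) ≠ 0 := fun c => by
        exact_mod_cast (Real.rpow_pos_of_pos he1 c).ne'
      have hAB : ((e.2 ^ c1 : ℝ) : ℂ) = τ * ((e.1 ^ c1 : ℝ) : ℂ) := by
        rw [hτ, div_mul_cancel₀ _ (hB c1)]
      have hτa : τ ∈ QB := by
        rw [hτ, ← hq1]
        exact div_mem (rpow_QB he2 he2a q1) (rpow_QB he1 he1a q1)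
      have hW' : W C (dQ e τ Q) ≤ T := by
        have h1 : W C (dQ e τ Q) < W C Q := by
          apply Finset.sum_lt_sum
          · intro c _; exact dif_wt_le _ _ _ _ _ _
          · exact ⟨c1, hc1, dif_wt_lt hAB hQ1⟩
        omega
      obtain ⟨v, hv, hvL⟩ := ih (dQ e τ Q) hW' (by
        intro c hc hne
        apply hrat c hc
        intro h0
        apply hne
        rw [← wt_eq_zero]
        have := dif_wt_le ((e.2 ^ c : ℝ) : ℂ) ((e.1 ^ c : ℝ) : ℂ) ((Real.log e.2 : ℝ) : ℂ)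
          ((Real.log e.1 : ℝ) : ℂ) τ (Q c)
        rw [h0, wt_zero] at this
        unfold dQ
        rw [h0]
        omega) (by
        intro c hc
        exact (dif_wt_le _ _ _ _ _ _).trans (hwt c hc)) (by
        apply Bd.dif (hwt c0 hc0) (rpow_QB he2 he2a c0) (rpow_QB he1 he1a c0) hτa
          (log_LL he2 he2a) (log_LL he1 he1a) ?_ hbd
        intro h2
        have h3 : ((e.2 / e.1) ^ (c0 : ℝ) : ℝ) = (e.2 / e.1) ^ c1 := by
          rw [Real.div_rpow he2.le he1.le, Real.div_rpow he2.le he1.le]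
          have h4 : (((e.2 ^ (c0 : ℝ) / e.1 ^ (c0 : ℝ) : ℝ)) : ℂ) = ((e.2 ^ c1 / e.1 ^ c1 : ℝ) : ℂ) := by
            push_cast
            rw [div_eq_iff (hB c0), h2, hτ]
          exact_mod_cast h4
        exact rpow_ne (div_pos he2 he1) (fun h5 => hne (by
          rw [div_eq_one_iff_eq he1.ne'] at h5; exact h5.symm)) (Ne.symm hcase) h3)
        l' hl.tail (by rw [List.length_cons] at hlen; omega) a ha haa
      have hv0 := vals_pos hl.tail.pos ha v hv
      obtain ⟨h5, h6⟩ := mem_vals_cons (e := e) hv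
      rw [ev_dQ C Q he1 he2 τ hv0] at hvL
      by_cases h7 : ev C Q (e.2 * v) ∈ LL
      · refine ⟨_, h5, fun h8 => hvL (Submodule.sub_mem _ h7 (LL_mul hτa h8))⟩
      · exact ⟨_, h6, h7⟩
    · push Not at h
      have h2 : ∀ v, ev C Q v = (Q c0).eval ((Real.log v : ℝ) : ℂ) * ((v ^ (c0 : ℝ) : ℝ) : ℂ) := by
        intro v
        unfold ev
        apply Finset.sum_eq_single (c0 : ℝ)
        · intro c hc hne
          have : Q c = 0 := by
            by_contra h3
            exact hne (h c hc h3)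
          rw [this, eval_zero, zero_mul]
        · intro h3; exact absurd hc0 h3
      by_contra hcon
      push Not at hcon
      have hva : ∀ v ∈ vals l a, 0 < v ∧ IsAlgebraic ℚ v := by
        intro v hv
        obtain ⟨w, hw, hwa, rfl⟩ := vals_alg hl.1 a v hv
        exact ⟨mul_pos ha hw, haa.mul hwa⟩
      have h3 : ∀ v ∈ vals l a,
          (Q c0).coeff 1 * ((Real.log v : ℝ) : ℂ) + (Q c0).coeff 0 ∈ LL := by
        intro v hv
        obtain ⟨hv0, hv1⟩ := hva v hv
        have h4 := hcon v hv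
        rw [h2] at h4
        have h5 : ((v ^ (c0 : ℝ) : ℝ) : ℂ) ≠ 0 := by
          exact_mod_cast (Real.rpow_pos_of_pos hv0 _).ne'
        have h6 := LL_mul (inv_mem (rpow_QB hv0 hv1 c0)) h4
        have h7 : (Q c0).eval ((Real.log v : ℝ) : ℂ) =
            (Q c0).coeff 1 * ((Real.log v : ℝ) : ℂ) + (Q c0).coeff 0 := by
          conv_lhs => rw [lin_eq (hwt c0 hc0)]
          simp
        rw [h7] at h6
        have h8 : (((v ^ (c0 : ℝ) : ℝ) : ℂ))⁻¹ *
            (((Q c0).coeff 1 * ((Real.log v : ℝ) : ℂ) + (Q c0).coeff 0) *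
              ((v ^ (c0 : ℝ) : ℝ) : ℂ)) =
            (Q c0).coeff 1 * ((Real.log v : ℝ) : ℂ) + (Q c0).coeff 0 := by
          field_simp
        rwa [h8] at h6
      by_cases hβ : (Q c0).coeff 1 ∈ QB
      · have hl0 : (Q c0).coeff 0 ∉ LL := by
          rcases hbd with h | h
          · exact absurd hβ h
          · exact h
        obtain ⟨v, hv⟩ := vals_nonempty l a
        obtain ⟨hv0, hv1⟩ := hva v hv
        apply hl0
        have h4 := Submodule.sub_mem _ (h3 v hv) (LL_mul hβ (log_LL hv0 hv1))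
        rwa [add_sub_cancel_left] at h4
      · have hld : ∀ i : Fin l.length, (Q c0).coeff 1 * ld (l.get i) ∈ LL := by
          intro i
          obtain ⟨v, h4, h5⟩ := vals_side l a i
          have hv := side_pos hl ha i h4
          obtain ⟨h6, h7⟩ := hl.pos _ (List.get_mem l i)
          have h8 := Submodule.sub_mem _ (h3 _ h5) (h3 _ h4)
          have h9 : (Q c0).coeff 1 * ((Real.log (v * (l.get i).2) : ℝ) : ℂ) + (Q c0).coeff 0 -
              ((Q c0).coeff 1 * ((Real.log (v * (l.get i).1) : ℝ) : ℂ) + (Q c0).coeff 0) =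
              (Q c0).coeff 1 * ld (l.get i) := by
            rw [Real.log_mul hv.ne' h6.ne', Real.log_mul hv.ne' h7.ne']
            unfold ld
            push_cast
            ring
          rwa [h9] at h8
        have hlen3 : 3 ≤ l.length := by omega
        refine term_c hβ (fun i : Fin 3 => ld (l.get (Fin.castLE hlen3 i))) ?_ ?_ ?_
        · exact hl.2.comp _ (Fin.castLE_injective hlen3)
        · intro i
          obtain ⟨h4, h5, h6, h7⟩ := hl.1 _ (List.get_mem l (Fin.castLE hlen3 i))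
          exact Submodule.sub_mem _ (log_LL h5 h7) (log_LL h4 h6)
        · intro i; exact hld _

end Pool.Agent.TH975.EP
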