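import Mathlib

/-! Multiplicative cubes as lists. -/

namespace Pool.Agent.TH975.EP

/-- the `2 ^ k` values of the multiplicative cube with base point `a` -/
def vals : List (ℝ × ℝ) → ℝ → List ℝ
  | [], a => [a]
  | e :: l, a => vals l (a * e.1) ++ vals l (a * e.2)

theorem vals_mul (l : List (ℝ × ℝ)) : ∀ a b : ℝ, vals l (b * a) = (vals l a).map (fun v => b * v) := by
  induction l with
  | nil => intro a b; simp [vals]
  | cons e l ih =>
    intro a b
    simp only [vals, List.map_append]
    rw [← ih, ← ih, mul_assoc, mul_assoc]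

theorem mem_vals_cons {e : ℝ × ℝ} {l : List (ℝ × ℝ)} {a v : ℝ} (hv : v ∈ vals l a) :
    e.1 * v ∈ vals (e :: l) a ∧ e.2 * v ∈ vals (e :: l) a := by
  simp only [vals, List.mem_append]
  refine ⟨Or.inl ?_, Or.inr ?_⟩
  · rw [mul_comm a, vals_mul]
    exact List.mem_map.2 ⟨v, hv, rfl⟩
  · rw [mul_comm a, vals_mul]
    exact List.mem_map.2 ⟨v, hv, rfl⟩

theorem mem_vals_append (l l' : List (ℝ × ℝ)) : ∀ {a b u v : ℝ}, u ∈ vals l b → v ∈ vals l' a →
    u * v ∈ vals (l ++ l') (b * a) := by
  induction l with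
  | nil =>
    intro a b u v hu hv
    simp only [vals, List.mem_singleton] at hu
    subst hu
    rw [List.nil_append, vals_mul]
    exact List.mem_map.2 ⟨v, hv, rfl⟩
  | cons e l ih =>
    intro a b u v hu hv
    simp only [vals, List.cons_append, List.mem_append] at hu ⊢
    rcases hu with hu | hu
    · left
      have := ih hu hv
      rwa [show b * e.1 * a = b * a * e.1 by ring] at this
    · right
      have := ih hu hv
      rwa [show b * e.2 * a = b * a * e.2 by ring] at this

theorem vals_pos {l : List (ℝ × ℝ)} (hl : ∀ e ∈ l, 0 < e.1 ∧ 0 < e.2) :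
    ∀ {a : ℝ}, 0 < a → ∀ v ∈ vals l a, 0 < v := by
  induction l with
  | nil =>
    intro a ha v hv
    simp only [vals, List.mem_singleton] at hv
    rw [hv]; exact ha
  | cons e l ih =>
    intro a ha v hv
    simp only [vals, List.mem_append] at hv
    have he := hl e (List.mem_cons_self ..)
    rcases hv with hv | hv
    · exact ih (fun e' he' => hl e' (List.mem_cons_of_mem _ he')) (mul_pos ha he.1) v hv
    · exact ih (fun e' he' => hl e' (List.mem_cons_of_mem _ he')) (mul_pos ha he.2) v hv

theorem vals_nonempty (l : List (ℝ × ℝ)) : ∀ a : ℝ, ∃ v, v ∈ vals l a := by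
  induction l with
  | nil => intro a; exact ⟨a, by simp [vals]⟩
  | cons e l ih =>
    intro a
    obtain ⟨v, hv⟩ := ih (a * e.1)
    exact ⟨v, by simp only [vals, List.mem_append]; exact Or.inl hv⟩

theorem vals_sublist {l l' : List (ℝ × ℝ)} (h : l'.Sublist l) (hl : ∀ e ∈ l, 0 < e.1 ∧ 0 < e.2) :
    ∃ b : ℝ, 0 < b ∧ ∀ a : ℝ, ∀ v ∈ vals l' (a * b), v ∈ vals l a := by
  induction h with
  | slnil => exact ⟨1, one_pos, fun a v hv => by simpa using hv⟩
  | cons e h ih =>
    obtain ⟨b, hb, hb'⟩ := ih (fun e' he' => hl e' (List.mem_cons_of_mem _ he'))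
    refine ⟨e.1 * b, mul_pos (hl e (List.mem_cons_self ..)).1 hb, fun a v hv => ?_⟩
    simp only [vals, List.mem_append]
    left
    apply hb'
    rwa [mul_assoc]
  | cons_cons e h ih =>
    obtain ⟨b, hb, hb'⟩ := ih (fun e' he' => hl e' (List.mem_cons_of_mem _ he'))
    refine ⟨b, hb, fun a v hv => ?_⟩
    simp only [vals, List.mem_append] at hv ⊢
    rcases hv with hv | hv
    · left
      apply hb'
      rwa [show a * e.1 * b = a * b * e.1 by ring]
    · right
      apply hb'
      rwa [show a * e.2 * b = a * b * e.2 by ring]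

theorem vals_ofFn : ∀ {k : ℕ} (g : Fin k → ℝ × ℝ) (a v : ℝ), v ∈ vals (List.ofFn g) a →
    ∃ S : Finset (Fin k), v = a * ∏ i, (if i ∈ S then (g i).2 else (g i).1) := by
  classical
  intro k
  induction k with
  | zero =>
    intro g a v hv
    simp only [List.ofFn_zero, vals, List.mem_singleton] at hv
    exact ⟨∅, by simp [hv]⟩
  | succ k ih =>
    intro g a v hv
    rw [List.ofFn_succ] at hv
    simp only [vals, List.mem_append] at hv
    rcases hv with hv | hv
    · obtain ⟨S, hS⟩ := ih _ _ _ hv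
      refine ⟨S.map (Fin.succEmb k), ?_⟩
      rw [Fin.prod_univ_succ, hS]
      have h0 : (0 : Fin (k + 1)) ∉ S.map (Fin.succEmb k) := by
        simp [Fin.succ_ne_zero]
      rw [if_neg h0, mul_assoc]
      congr 2
      apply Finset.prod_congr rfl
      intro i _
      have : (i.succ ∈ S.map (Fin.succEmb k)) ↔ i ∈ S := by
        simp
      by_cases hi : i ∈ S
      · rw [if_pos hi, if_pos (this.2 hi)]
      · rw [if_neg hi, if_neg (fun h => hi (this.1 h))]
    · obtain ⟨S, hS⟩ := ih _ _ _ hv
      refine ⟨insert 0 (S.map (Fin.succEmb k)), ?_⟩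
      rw [Fin.prod_univ_succ, hS]
      rw [if_pos (Finset.mem_insert_self _ _), mul_assoc]
      congr 2
      apply Finset.prod_congr rfl
      intro i _
      have : (i.succ ∈ insert 0 (S.map (Fin.succEmb k))) ↔ i ∈ S := by
        simp [Fin.succ_ne_zero]
      by_cases hi : i ∈ S
      · rw [if_pos hi, if_pos (this.2 hi)]
      · rw [if_neg hi, if_neg (fun h => hi (this.1 h))]

end Pool.Agent.TH975.EP
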