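import Pool.Agent.TH975.EP.CoreC
import Pool.Agent.H297R2.Dense
import Pool.Agent.H297R2.Density

/-! From cubes to density. -/

namespace Pool.Agent.TH975.EP

open Polynomial Module Pool.Agent.H297R2

/-- differences of the logarithms of different primes -/
theorem ld_indep {k : ℕ} (p q : Fin k → ℕ) (hp : ∀ i, (p i).Prime) (hq : ∀ i, (q i).Prime)
    (hinj : Function.Injective (Sum.elim p q)) :
    LinearIndependent QB (fun i => ld ((p i : ℝ), (q i : ℝ))) := by
  classical
  set P : Fin k ⊕ Fin k → ℕ := Sum.elim p q with hPdef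
  have hPprime : ∀ i, (P i).Prime := by
    rintro (i | i)
    · exact hp i
    · exact hq i
  have hli := linearIndependent_log_prime P hPprime hinj
  rw [Fintype.linearIndependent_iff]
  intro c hc
  have h1 := baker (fun i => (Real.log (P i) : ℂ)) (by
    intro i
    rw [← Complex.ofReal_exp, Real.exp_log (by exact_mod_cast (hPprime i).pos)]
    rw [Complex.ofReal_natCast]
    exact isAlgebraic_natCast _) hli (Sum.elim (fun i => -(c i : ℂ)) (fun i => (c i : ℂ))) (by
    rintro (i | i)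
    · exact ((mem_algebraicClosure_iff).1 (c i).2).neg
    · exact (mem_algebraicClosure_iff).1 (c i).2) (by
    rw [Fintype.sum_sum_type, ← hc, ← Finset.sum_add_distrib]
    apply Finset.sum_congr rfl
    intro i _
    simp only [Sum.elim_inl, Sum.elim_inr, hPdef, ld]
    rw [Algebra.smul_def]
    change _ = (c i : ℂ) * _
    ring)
  intro i
  have h2 := h1 (Sum.inr i)
  simp only [Sum.elim_inr] at h2
  exact_mod_cast h2

/-- at most two of the ratios have an algebraic power with irrational exponent -/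
theorem bad_card {k : ℕ} (p q : Fin k → ℕ) (hp : ∀ i, (p i).Prime) (hq : ∀ i, (q i).Prime)
    (hinj : Function.Injective (Sum.elim p q)) {c : ℝ} (hc : Irrational c) (B : Finset (Fin k))
    (hB : ∀ i ∈ B, IsAlgebraic ℚ ((((q i : ℝ) / (p i : ℝ)) ^ c : ℝ))) : B.card ≤ 2 := by
  classical
  have hpp : ∀ i, (0 : ℝ) < p i := fun i => by exact_mod_cast (hp i).pos
  have hqp : ∀ i, (0 : ℝ) < q i := fun i => by exact_mod_cast (hq i).pos
  have hratio : ∀ i, (0 : ℝ) < (q i : ℝ) / p i := fun i => div_pos (hqp i) (hpp i)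
  have hralg : ∀ i, IsAlgebraic ℚ ((q i : ℝ) / (p i : ℝ)) := by
    intro i
    have : (q i : ℝ) / (p i : ℝ) = algebraMap ℚ ℝ ((q i : ℚ) / (p i : ℚ)) := by simp
    rw [this]
    exact isAlgebraic_algebraMap _
  have hrne : ∀ i, (q i : ℝ) / p i ≠ 1 := by
    intro i h
    rw [div_eq_one_iff_eq (hpp i).ne'] at h
    have h4 : q i = p i := by exact_mod_cast h
    have h5 := hinj (a₁ := Sum.inl i) (a₂ := Sum.inr i) (by simp [h4])
    exact absurd h5 (by simp)
  by_contra hcard
  push Not at hcard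
  by_cases hca : IsAlgebraic ℚ c
  · obtain ⟨i, hi⟩ := Finset.card_pos.1 (by omega : 0 < B.card)
    exact Pool.Agent.H137R5.Tow.gs (hratio i) (hrne i) (hralg i) hca hc (hB i hi)
  · obtain ⟨i, hi, j, hj, l, hl, hij, hil, hjl⟩ := Finset.two_lt_card.1 hcard
    have hli := ld_indep p q hp hq hinj
    have hld : ∀ i, ld ((p i : ℝ), (q i : ℝ)) = ((Real.log ((q i : ℝ) / p i) : ℝ) : ℂ) := by
      intro i
      unfold ld
      rw [Real.log_div (hqp i).ne' (hpp i).ne']
      push_cast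
      ring
    have hmem : ∀ i, ld ((p i : ℝ), (q i : ℝ)) ∈ Pool.Agent.H301R2.SSE.Lt := by
      intro i
      rw [hld]
      apply Pool.Agent.H137R5.Tow.lt_of
      rw [Real.exp_log (hratio i)]
      exact hralg i
    have hmemc : ∀ i ∈ B, ((c : ℝ) : ℂ) * ld ((p i : ℝ), (q i : ℝ)) ∈ Pool.Agent.H301R2.SSE.Lt := by
      intro i hi
      rw [hld, ← Complex.ofReal_mul]
      apply Pool.Agent.H137R5.Tow.lt_of
      rw [mul_comm, ← Real.rpow_def_of_pos (hratio i)]
      exact hB i hi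
    refine Pool.Agent.H137R5.Tow.core c hca (ld ((p i : ℝ), (q i : ℝ))) (ld ((p j : ℝ), (q j : ℝ)))
      (ld ((p l : ℝ), (q l : ℝ))) ?_ (hmem i) (hmem j) (hmem l) (hmemc i hi) (hmemc j hj)
      (hmemc l hl)
    intro x y z hx hy hz hs
    rw [Fintype.linearIndependent_iff] at hli
    have h1 := hli (fun t => if t = i then ⟨x, mem_QB.2 hx⟩ else if t = j then ⟨y, mem_QB.2 hy⟩ else
      if t = l then ⟨z, mem_QB.2 hz⟩ else 0) (by
      rw [← hs]
      have : ∀ t, (if t = i then (⟨x, mem_QB.2 hx⟩ : QB) else if t = j then ⟨y, mem_QB.2 hy⟩ else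
          if t = l then ⟨z, mem_QB.2 hz⟩ else 0) • ld ((p t : ℝ), (q t : ℝ)) =
          (if t = i then x * ld ((p t : ℝ), (q t : ℝ)) else 0) +
          (if t = j then y * ld ((p t : ℝ), (q t : ℝ)) else 0) +
          (if t = l then z * ld ((p t : ℝ), (q t : ℝ)) else 0) := by
        intro t
        by_cases h1 : t = i
        · subst h1
          simp only [if_pos, if_neg hij, if_neg hil, add_zero]
          rfl
        · by_cases h2 : t = j
          · subst h2
            simp only [if_pos, if_neg (Ne.symm hij), if_neg hjl, add_zero, zero_add]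
            rfl
          · by_cases h3 : t = l
            · subst h3
              simp only [if_pos, if_neg h1, if_neg h2, zero_add]
              rfl
            · simp only [if_neg h1, if_neg h2, if_neg h3, add_zero, zero_smul]
      simp only [this, Finset.sum_add_distrib, Finset.sum_ite_eq', Finset.mem_univ, if_true])
    have e1 := congrArg (fun z : QB => (z : ℂ)) (h1 i)
    have e2 := congrArg (fun z : QB => (z : ℂ)) (h1 j)
    have e3 := congrArg (fun z : QB => (z : ℂ)) (h1 l)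
    simp only [if_pos, if_neg (Ne.symm hij), if_neg (Ne.symm hil), if_neg (Ne.symm hjl)] at e1 e2 e3
    exact ⟨by simpa using e1, by simpa using e2, by simpa using e3⟩

open Classical in
/-- sets of integers of positive density contain values on large cubes -/
theorem dens_unif (K : ℕ) (ε : ℝ) (hε : 0 < ε) : ∃ N0 : ℕ, ∀ N ≥ N0, ∀ Bad : ℝ → Prop,
    (∀ (p q : Fin K → ℕ), (∀ i, (p i).Prime) → (∀ i, (q i).Prime) →
      Function.Injective (Sum.elim p q) → ∀ a : ℕ, 0 < a →
      ∃ v ∈ vals (List.ofFn fun i => ((p i : ℝ), (q i : ℝ))) (a : ℝ), ¬ Bad v) →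
      (((Finset.Icc 1 N).filter (fun n : ℕ => Bad (n : ℝ))).card : ℝ) ≤ ε * N := by
  obtain ⟨x0, hx0⟩ := dense_cube K ε hε 1
  refine ⟨x0, fun N hN Bad hK => ?_⟩
  by_contra hcon
  push Not at hcon
  obtain ⟨a0, p, q, ha0, hp, hq, hinj, hcube⟩ := hx0 N hN
    ((Finset.Icc 1 N).filter (fun n : ℕ => Bad (n : ℝ))) (by
      intro n hn
      rw [Finset.mem_filter, Finset.mem_Icc] at hn
      rw [Finset.mem_Ioc]
      omega) hcon.le
  obtain ⟨v, hv, hbad⟩ := hK p q (fun i => (hp i).1) (fun i => (hq i).1) hinj a0 ha0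
  obtain ⟨S, hS⟩ := vals_ofFn _ _ _ hv
  apply hbad
  have h1 := (Finset.mem_filter.1 (hcube S)).2
  rw [hS]
  convert h1 using 1
  rw [Nat.cast_mul, Nat.cast_prod]
  congr 1
  apply Finset.prod_congr rfl
  intro i _
  by_cases hi : i ∈ S
  · rw [if_pos hi, if_pos hi]
  · rw [if_neg hi, if_neg hi]

theorem GB_ofFn {k : ℕ} (p q : Fin k → ℕ) (hp : ∀ i, (p i).Prime) (hq : ∀ i, (q i).Prime)
    (hinj : Function.Injective (Sum.elim p q)) :
    GB (List.ofFn fun i => ((p i : ℝ), (q i : ℝ))) := by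
  have hpp : ∀ i, (0 : ℝ) < p i := fun i => by exact_mod_cast (hp i).pos
  have hqp : ∀ i, (0 : ℝ) < q i := fun i => by exact_mod_cast (hq i).pos
  refine ⟨?_, ?_⟩
  · intro e he
    rw [List.mem_ofFn] at he
    obtain ⟨i, rfl⟩ := he
    refine ⟨hpp i, hqp i, ?_, ?_⟩
    · exact_mod_cast isAlgebraic_natCast (R := ℚ) (A := ℝ) (p i)
    · exact_mod_cast isAlgebraic_natCast (R := ℚ) (A := ℝ) (q i)
  · have h1 := ld_indep p q hp hq hinj
    have hlen : (List.ofFn fun i => ((p i : ℝ), (q i : ℝ))).length = k := List.length_ofFn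
    have h2 := h1.comp (fun i : Fin (List.ofFn fun i => ((p i : ℝ), (q i : ℝ))).length =>
      Fin.cast hlen i) (Fin.cast_injective hlen)
    convert h2 using 1
    funext i
    simp
    rfl

theorem cube_a (C : Finset ℝ) (Q : ℝ → ℂ[X]) {c0 : ℝ} (hc0 : c0 ∈ C) (hQ : Q c0 ≠ 0)
    (hirr : Irrational c0) {K : ℕ} (hKK : KK (W C Q) + 2 ≤ K) (p q : Fin K → ℕ)
    (hp : ∀ i, (p i).Prime) (hq : ∀ i, (q i).Prime) (hinj : Function.Injective (Sum.elim p q))
    (a : ℕ) (ha : 0 < a) :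
      ∃ v ∈ vals (List.ofFn fun i => ((p i : ℝ), (q i : ℝ))) (a : ℝ),
        ev C Q v ∉ LL := by
  classical
  have hK := core_a C Q hc0 hQ
  have hpp : ∀ i, (0 : ℝ) < p i := fun i => by exact_mod_cast (hp i).pos
  have hqp : ∀ i, (0 : ℝ) < q i := fun i => by exact_mod_cast (hq i).pos
  let B : Finset (Fin K) :=
    Finset.univ.filter fun i => IsAlgebraic ℚ ((((q i : ℝ) / (p i : ℝ)) ^ c0 : ℝ))
  have hB : B.card ≤ 2 := bad_card p q hp hq hinj hirr B fun i hi => (Finset.mem_filter.1 hi).2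
  let g : Fin K → ℝ × ℝ := fun i => ((p i : ℝ), (q i : ℝ))
  let L : List (Fin K) := (List.finRange K).filter fun i => i ∉ B
  have hL : KK (W C Q) ≤ L.length := by
    have h1 : L.Nodup := (List.nodup_finRange _).filter _
    have h2 : L.toFinset = Finset.univ \ B := by
      ext i
      simp [L]
    rw [← List.toFinset_card_of_nodup h1, h2, Finset.card_sdiff_of_subset (Finset.subset_univ _),
      Finset.card_univ, Fintype.card_fin]
    omega
  have hsub : (L.map g).Sublist (List.ofFn g) := by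
    rw [List.ofFn_eq_map]
    exact (List.filter_sublist).map g
  obtain ⟨b, hb, hb'⟩ := vals_sublist hsub (by
    intro e he
    rw [List.mem_ofFn] at he
    obtain ⟨i, rfl⟩ := he
    exact ⟨hpp i, hqp i⟩)
  obtain ⟨v, hv, hv'⟩ := hK (L.map g) (by
    intro e he
    obtain ⟨i, hi, rfl⟩ := List.mem_map.1 he
    have hiB : i ∉ B := by
      have := (List.mem_filter.1 hi).2
      simpa using this
    refine ⟨hpp i, hqp i, ?_, ?_⟩
    · intro h
      have h' : (p i : ℝ) = (q i : ℝ) := h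
      have h4 : p i = q i := by exact_mod_cast h'
      have h5 := hinj (a₁ := Sum.inl i) (a₂ := Sum.inr i) (by simp [h4])
      exact absurd h5 (by simp)
    · apply Pool.Agent.H137R5.Tow.trC
      intro h
      exact hiB (Finset.mem_filter.2 ⟨Finset.mem_univ _, h⟩)) (by
    rw [List.length_map]; exact hL) ((a : ℝ) * b) (mul_pos (by exact_mod_cast ha) hb)
  exact ⟨v, hb' a v hv, hv'⟩

theorem cube_b (C : Finset ℝ) (Q : ℝ → ℂ[X]) {c0 : ℚ} (hc0 : (c0 : ℝ) ∈ C)
    (hQ : 2 ≤ (Q c0).natDegree) {K : ℕ} (hKK : KK (W C Q) ≤ K) (p q : Fin K → ℕ)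
    (hp : ∀ i, (p i).Prime) (hq : ∀ i, (q i).Prime) (hinj : Function.Injective (Sum.elim p q))
    (a : ℕ) (ha : 0 < a) :
      ∃ v ∈ vals (List.ofFn fun i => ((p i : ℝ), (q i : ℝ))) (a : ℝ),
        ev C Q v ∉ LL :=
  core_b C Q hc0 hQ _ (GB_ofFn p q hp hq hinj) (by rw [List.length_ofFn]; exact hKK) _
    (by exact_mod_cast ha)

theorem cube_c (C : Finset ℝ) (Q : ℝ → ℂ[X]) {c0 : ℚ} (hc0 : (c0 : ℝ) ∈ C)
    (hrat : ∀ c ∈ C, Q c ≠ 0 → ∃ q : ℚ, (q : ℝ) = c) (hwt : ∀ c ∈ C, wt (Q c) ≤ 2)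
    (hbd : Bd (Q c0)) {K : ℕ} (hKK : W C Q + 3 ≤ K) (p q : Fin K → ℕ)
    (hp : ∀ i, (p i).Prime) (hq : ∀ i, (q i).Prime) (hinj : Function.Injective (Sum.elim p q))
    (a : ℕ) (ha : 0 < a) :
      ∃ v ∈ vals (List.ofFn fun i => ((p i : ℝ), (q i : ℝ))) (a : ℝ), ev C Q v ∉ LL := by
  apply core_c C hc0 (W C Q) Q le_rfl hrat hwt hbd _ (GB_ofFn p q hp hq hinj)
    (by rw [List.length_ofFn]; exact hKK) _ (by exact_mod_cast ha)
  exact_mod_cast isAlgebraic_natCast (R := ℚ) (A := ℝ) a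

/-- the exponential polynomial with exponents `c i` and coefficients `P i` -/
theorem ev_fin {h : ℕ} (c : Fin h → ℝ) (hc : Function.Injective c) (P : Fin h → ℂ[X]) (v : ℝ) :
    ev (Finset.univ.image c) (Function.extend c P 0) v =
      ∑ i, (P i).eval ((Real.log v : ℝ) : ℂ) * ((v ^ (c i) : ℝ) : ℂ) := by
  unfold ev
  rw [Finset.sum_image (fun i _ j _ hij => hc hij)]
  apply Finset.sum_congr rfl
  intro i _
  rw [hc.extend_apply]


theorem W_fin {h : ℕ} (c : Fin h → ℝ) (hc : Function.Injective c) (P : Fin h → ℂ[X]) :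
    W (Finset.univ.image c) (Function.extend c P 0) ≤ ∑ i, ((P i).natDegree + 1) := by
  unfold W
  rw [Finset.sum_image (fun i _ j _ hij => hc hij)]
  apply Finset.sum_le_sum
  intro i _
  rw [hc.extend_apply]
  by_cases h0 : P i = 0
  · rw [h0, wt_zero]; omega
  · rw [wt_of_ne h0]

/-- the number of sides needed for all weights up to `R` -/
def KM (R : ℕ) : ℕ := (Finset.range (R + 1)).sup fun r => KK r + r + 3

theorem le_KM {r R : ℕ} (h : r ≤ R) : KK r + r + 3 ≤ KM R :=
  Finset.le_sup (f := fun r => KK r + r + 3) (Finset.mem_range.2 (by omega))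

/-- the exceptional case -/
def Exc {h : ℕ} (c : Fin h → ℝ) (P : Fin h → ℂ[X]) : Prop :=
  ∀ i, P i ≠ 0 → (∃ q : ℚ, (q : ℝ) = c i) ∧ (P i).natDegree ≤ 1 ∧
        IsAlgebraic ℚ ((P i).coeff 1) ∧ (P i).coeff 0 ∈ LL

theorem cube_all {h : ℕ} (c : Fin h → ℝ) (hc : Function.Injective c) (P : Fin h → ℂ[X]) {R : ℕ}
    (hR : ∑ i, ((P i).natDegree + 1) ≤ R) (hne : ¬ Exc c P) (p q : Fin (KM R) → ℕ)
    (hp : ∀ i, (p i).Prime) (hq : ∀ i, (q i).Prime) (hinj : Function.Injective (Sum.elim p q))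
    (a : ℕ) (ha : 0 < a) :
      ∃ v ∈ vals (List.ofFn fun i => ((p i : ℝ), (q i : ℝ))) (a : ℝ),
        ∑ i, (P i).eval ((Real.log v : ℝ) : ℂ) * ((v ^ (c i) : ℝ) : ℂ) ∉ LL := by
  simp only [← ev_fin c hc P]
  have hK := le_KM ((W_fin c hc P).trans hR)
  have hQ : ∀ i, Function.extend c P 0 (c i) = P i := fun i => hc.extend_apply P 0 i
  by_cases h1 : ∃ j, (Irrational (c j) ∧ P j ≠ 0) ∨ 2 ≤ (P j).natDegree
  · obtain ⟨j, hj⟩ := h1
    have hmem : c j ∈ Finset.univ.image c := Finset.mem_image_of_mem c (Finset.mem_univ j)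
    by_cases hirr : Irrational (c j)
    · refine cube_a _ _ hmem ?_ hirr (by omega) p q hp hq hinj a ha
      rw [hQ j]
      rcases hj with hj | hj
      · exact hj.2
      · intro h0
        rw [h0, natDegree_zero] at hj
        omega
    · rcases hj with hj | hj
      · exact absurd hj.1 hirr
      · unfold Irrational at hirr
        rw [not_not] at hirr
        obtain ⟨c0, hc0⟩ := hirr
        refine cube_b _ _ (c0 := c0) ?_ ?_ (by omega) p q hp hq hinj a ha
        · rw [hc0]; exact hmem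
        · rw [hc0, hQ j]; exact hj
  push Not at h1
  have hrat : ∀ i, P i ≠ 0 → ∃ q : ℚ, (q : ℝ) = c i := by
    intro i hi
    have h2 : ¬ Irrational (c i) := fun h => hi ((h1 i).1 h)
    unfold Irrational at h2
    rw [not_not] at h2
    exact h2
  have hdeg : ∀ i, (P i).natDegree ≤ 1 := fun i => by
    have := (h1 i).2
    omega
  have h2 : ∃ j, Bd (P j) := by
    by_contra h2
    push Not at h2
    apply hne
    intro i hi
    have := h2 i
    unfold Bd at this
    push Not at this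
    exact ⟨hrat i hi, hdeg i, mem_QB.1 this.1, this.2⟩
  obtain ⟨j, hj⟩ := h2
  have hPj : P j ≠ 0 := by
    intro h0
    rcases hj with h | h
    · apply h; rw [h0, coeff_zero]; exact QB.zero_mem
    · apply h; rw [h0, coeff_zero]; exact LL.zero_mem
  obtain ⟨c0, hc0⟩ := hrat j hPj
  exact cube_c (Finset.univ.image c) (Function.extend c P 0) (c0 := c0)
    (by rw [hc0]; exact Finset.mem_image_of_mem c (Finset.mem_univ j)) (by
      intro x hx hne
      obtain ⟨i, -, rfl⟩ := Finset.mem_image.1 hx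
      rw [hQ] at hne
      exact hrat i hne) (by
      intro x hx
      obtain ⟨i, -, rfl⟩ := Finset.mem_image.1 hx
      rw [hQ]
      by_cases h0 : P i = 0
      · rw [h0, wt_zero]; omega
      · rw [wt_of_ne h0]
        have := hdeg i
        omega) (by rw [hc0, hQ]; exact hj) (by omega) p q hp hq hinj a ha

open Classical in
/-- **The main theorem.** -/
theorem main (R : ℕ) (ε : ℝ) (hε : 0 < ε) : ∃ N0 : ℕ, ∀ N ≥ N0, ∀ (h : ℕ) (c : Fin h → ℝ)
    (P : Fin h → ℂ[X]), Function.Injective c → ∑ i, ((P i).natDegree + 1) ≤ R → ¬ Exc c P →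
      (((Finset.Icc 1 N).filter (fun n : ℕ =>
        ∑ i, (P i).eval ((Real.log n : ℝ) : ℂ) * (((n : ℝ) ^ (c i) : ℝ) : ℂ) ∈ LL)).card : ℝ) ≤
          ε * N := by
  obtain ⟨N0, hN0⟩ := dens_unif (KM R) ε hε
  refine ⟨N0, fun N hN h c P hc hR hne => ?_⟩
  exact hN0 N hN (fun v =>
    ∑ i, (P i).eval ((Real.log v : ℝ) : ℂ) * ((v ^ (c i) : ℝ) : ℂ) ∈ LL)
    (fun p q hp hq hinj a ha => cube_all c hc P hR hne p q hp hq hinj a ha)

/-- the exceptional case: Baker's theorem decides -/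
theorem exc_mem {h : ℕ} (c : Fin h → ℝ) (P : Fin h → ℂ[X]) (hE : Exc c P) (n : ℕ) (hn : 1 ≤ n) :
    ∑ i, (P i).eval ((Real.log n : ℝ) : ℂ) * (((n : ℝ) ^ (c i) : ℝ) : ℂ) ∈ LL := by
  apply Submodule.sum_mem
  intro i _
  by_cases hi : P i = 0
  · rw [hi, eval_zero, zero_mul]; exact LL.zero_mem
  obtain ⟨⟨q, hq⟩, hdeg, h1, h0⟩ := hE i hi
  have hn0 : (0 : ℝ) < n := by exact_mod_cast hn
  have hna : IsAlgebraic ℚ (n : ℝ) := by exact_mod_cast isAlgebraic_natCast (R := ℚ) (A := ℝ) n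
  have h4 : (P i).eval ((Real.log n : ℝ) : ℂ) =
      (P i).coeff 1 * ((Real.log n : ℝ) : ℂ) + (P i).coeff 0 := by
    conv_lhs => rw [eq_X_add_C_of_natDegree_le_one hdeg]
    simp
  rw [h4, mul_comm, ← hq]
  exact LL_mul (rpow_QB hn0 hna q) (Submodule.add_mem _ (LL_mul (mem_QB.2 h1) (log_LL hn0 hna)) h0)

end Pool.Agent.TH975.EP
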