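import Pool.Agent.TH975.EP.Rank

/-! Linear combinations of shifts. -/

namespace Pool.Agent.TH975.EP

open Polynomial Module

theorem sel {F M ι : Type*} [Field F] [AddCommGroup M] [Module F M] [Finite ι] (f : ι → M) {s : ℕ}
    (hs : s ≤ finrank F (Submodule.span F (Set.range f))) :
    ∃ g : Fin s → ι, LinearIndependent F (f ∘ g) := by
  classical
  obtain ⟨κ, a, ha, hspan, hli⟩ := exists_linearIndependent' F f
  have : Finite κ := Finite.of_injective a ha
  have := Fintype.ofFinite κ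
  have h1 : finrank F (Submodule.span F (Set.range (f ∘ a))) = Fintype.card κ :=
    finrank_span_eq_card hli
  rw [hspan] at h1
  have h2 : s ≤ Fintype.card κ := by rw [← h1]; exact hs
  let b : Fin s → κ := fun i => (Fintype.equivFin κ).symm (Fin.castLE h2 i)
  have hb : Function.Injective b := by
    intro i j hij
    have := (Fintype.equivFin κ).symm.injective hij
    exact Fin.castLE_injective h2 this
  exact ⟨a ∘ b, hli.comp b hb⟩

theorem eval_wt {P : ℂ[X]} {n : ℕ} (h : wt P ≤ n) (x : ℂ) :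
    P.eval x = ∑ i ∈ Finset.range n, P.coeff i * x ^ i := by
  by_cases hP : P = 0
  · subst hP; simp
  · rw [wt_of_ne hP] at h
    exact eval_eq_sum_range' (by omega) x

theorem wt_shf (u : ℝ) (Q : ℝ → ℂ[X]) (c : ℝ) : wt (shf u Q c) ≤ wt (Q c) :=
  (wt_C_mul _ _).trans (sft_wt _ _).le

/-- linear combinations of shifts -/
noncomputable def cmb {d : ℕ} (m : Fin d → ℂ) (u : Fin d → ℝ) (Q : ℝ → ℂ[X]) (c : ℝ) : ℂ[X] :=
  ∑ j, Polynomial.C (m j) * shf (u j) Q c

theorem ev_cmb (C : Finset ℝ) {d : ℕ} (m : Fin d → ℂ) (u : Fin d → ℝ) (Q : ℝ → ℂ[X])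
    (hu : ∀ j, 0 < u j) {v : ℝ} (hv : 0 < v) :
    ev C (cmb m u Q) v = ∑ j, m j * ev C Q (u j * v) := by
  have h1 : ∀ j, m j * ev C Q (u j * v) =
      ∑ c ∈ C, m j * ((shf (u j) Q c).eval ((Real.log v : ℝ) : ℂ) * ((v ^ c : ℝ) : ℂ)) := by
    intro j
    rw [← ev_shf C Q (hu j) hv]
    unfold ev
    rw [Finset.mul_sum]
  simp only [h1]
  rw [Finset.sum_comm]
  unfold ev cmb
  apply Finset.sum_congr rfl
  intro c _
  rw [eval_finsetSum, Finset.sum_mul]
  apply Finset.sum_congr rfl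
  intro j _
  rw [eval_mul, eval_C]
  ring

theorem wt_cmb {d : ℕ} (m : Fin d → ℂ) (u : Fin d → ℝ) (Q : ℝ → ℂ[X]) (c : ℝ) :
    wt (cmb m u Q c) ≤ wt (Q c) := by
  rw [wt_le_iff]
  apply Submodule.sum_mem
  intro j _
  exact wt_le_iff.1 ((wt_C_mul _ _).trans (wt_shf _ _ _))

theorem cmb_coeff {d : ℕ} (m : Fin d → ℂ) (u : Fin d → ℝ) (Q : ℝ → ℂ[X]) (c : ℝ) :
    (cmb m u Q c).coeff (Q c).natDegree =
      (∑ j, m j * (((u j) ^ c : ℝ) : ℂ)) * (Q c).leadingCoeff := by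
  unfold cmb shf
  rw [finsetSum_coeff, Finset.sum_mul]
  apply Finset.sum_congr rfl
  intro j _
  rw [coeff_C_mul, coeff_C_mul]
  have : (sft ((Real.log (u j) : ℝ) : ℂ) (Q c)).coeff (Q c).natDegree = (Q c).leadingCoeff := by
    rw [← sft_natDegree ((Real.log (u j) : ℝ) : ℂ) (Q c)]
    exact sft_leadingCoeff _ _
  rw [this]
  ring

end Pool.Agent.TH975.EP
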