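import Mathlib

/-! Shifts and differences of polynomials. -/

namespace Pool.Agent.TH975.EP

open Polynomial

/-- `0` for the zero polynomial, one plus the degree otherwise -/
noncomputable def wt (P : ℂ[X]) : ℕ := open Classical in if P = 0 then 0 else P.natDegree + 1

theorem wt_zero : wt 0 = 0 := by simp [wt]

theorem wt_of_ne {P : ℂ[X]} (h : P ≠ 0) : wt P = P.natDegree + 1 := by simp [wt, h]

theorem wt_pos {P : ℂ[X]} (h : P ≠ 0) : 0 < wt P := by rw [wt_of_ne h]; omega

theorem wt_eq_zero {P : ℂ[X]} : wt P = 0 ↔ P = 0 := by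
  constructor
  · intro h
    by_contra hne
    exact (wt_pos hne).ne' h
  · rintro rfl; exact wt_zero

/-- all polynomials of weight at most `n`: degree less than `n` -/
theorem wt_le_iff {P : ℂ[X]} {n : ℕ} : wt P ≤ n ↔ P ∈ degreeLT ℂ n := by
  rw [mem_degreeLT]
  by_cases h : P = 0
  · subst h
    simp [wt_zero, bot_lt_iff_ne_bot]
  · rw [wt_of_ne h, degree_eq_natDegree h, Nat.cast_lt]
    omega

/-- the shift `P(X + a)` -/
noncomputable def sft (a : ℂ) (P : ℂ[X]) : ℂ[X] := P.comp (X + C a)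

theorem sft_eval (a x : ℂ) (P : ℂ[X]) : (sft a P).eval x = P.eval (x + a) := by
  simp [sft, eval_comp]

theorem sft_natDegree (a : ℂ) (P : ℂ[X]) : (sft a P).natDegree = P.natDegree := by
  unfold sft
  rw [natDegree_comp, natDegree_X_add_C, mul_one]

theorem sft_leadingCoeff (a : ℂ) (P : ℂ[X]) : (sft a P).leadingCoeff = P.leadingCoeff := by
  unfold sft
  rw [leadingCoeff_comp (by rw [natDegree_X_add_C]; exact one_ne_zero), leadingCoeff_X_add_C,
    one_pow, mul_one]

theorem sft_ne {a : ℂ} {P : ℂ[X]} (h : P ≠ 0) : sft a P ≠ 0 := by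
  intro h0
  have := sft_leadingCoeff a P
  rw [h0, leadingCoeff_zero] at this
  exact h (leadingCoeff_eq_zero.1 this.symm)

theorem sft_wt (a : ℂ) (P : ℂ[X]) : wt (sft a P) = wt P := by
  by_cases h : P = 0
  · subst h; simp [sft]
  · rw [wt_of_ne h, wt_of_ne (sft_ne h), sft_natDegree]

theorem wt_C_mul (c : ℂ) (P : ℂ[X]) : wt (C c * P) ≤ wt P := by
  rw [wt_le_iff]
  rw [← smul_eq_C_mul]
  exact Submodule.smul_mem _ _ (wt_le_iff.1 le_rfl)

theorem wt_sub_le {P Q : ℂ[X]} {n : ℕ} (hP : wt P ≤ n) (hQ : wt Q ≤ n) : wt (P - Q) ≤ n := by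
  rw [wt_le_iff] at *
  exact Submodule.sub_mem _ hP hQ

/-- the difference operator -/
noncomputable def dif (A B x y τ : ℂ) (P : ℂ[X]) : ℂ[X] :=
  C A * sft x P - C τ * (C B * sft y P)

theorem dif_wt_le (A B x y τ : ℂ) (P : ℂ[X]) : wt (dif A B x y τ P) ≤ wt P := by
  apply wt_sub_le
  · exact (wt_C_mul _ _).trans (sft_wt _ _).le
  · exact (wt_C_mul _ _).trans ((wt_C_mul _ _).trans (sft_wt _ _).le)

theorem dif_coeff (A B x y τ : ℂ) (P : ℂ[X]) :
    (dif A B x y τ P).coeff P.natDegree = (A - τ * B) * P.leadingCoeff := by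
  have h : ∀ a, (sft a P).coeff P.natDegree = P.leadingCoeff := by
    intro a
    rw [← sft_natDegree a P]
    exact sft_leadingCoeff a P
  simp only [dif, coeff_sub, coeff_C_mul, h]
  ring

theorem dif_ne {A B x y τ : ℂ} {P : ℂ[X]} (h : A ≠ τ * B) (hP : P ≠ 0) : dif A B x y τ P ≠ 0 := by
  intro h0
  have := dif_coeff A B x y τ P
  rw [h0, coeff_zero] at this
  rcases mul_eq_zero.1 this.symm with h1 | h1
  · exact h (sub_eq_zero.1 h1)
  · exact hP (leadingCoeff_eq_zero.1 h1)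

theorem dif_wt_lt {A B x y τ : ℂ} {P : ℂ[X]} (h : A = τ * B) (hP : P ≠ 0) :
    wt (dif A B x y τ P) < wt P := by
  have h1 := dif_wt_le A B x y τ P
  have h2 := dif_coeff A B x y τ P
  rw [h, sub_self, zero_mul] at h2
  rw [wt_of_ne hP] at h1 ⊢
  have h3 : wt (dif A B x y τ P) ≤ P.natDegree := by
    rw [wt_le_iff, mem_degreeLT] at h1 ⊢
    rw [degree_lt_iff_coeff_zero] at h1 ⊢
    intro m hm
    rcases Nat.eq_or_lt_of_le hm with h4 | h4
    · rw [← h4, ← h2, h]
    · exact h1 m h4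
  omega

theorem dif_ne' {A B x y τ : ℂ} {P : ℂ[X]} (h : A = τ * B) (hA : A ≠ 0) (hxy : x ≠ y)
    (hP : 1 ≤ P.natDegree) : dif A B x y τ P ≠ 0 := by
  intro h0
  have h1 : C A * (sft x P - sft y P) = 0 := by
    rw [← h0, dif, h, C_mul]; ring
  have h2 : sft x P = sft y P := by
    rcases mul_eq_zero.1 h1 with h3 | h3
    · exact absurd (C_eq_zero.1 h3) hA
    · exact sub_eq_zero.1 h3
  have h3 : ∀ z : ℂ, P.eval (z + (x - y)) = P.eval z := by
    intro z
    have := congrArg (fun Q => Q.eval (z - y)) h2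
    simp only [sft_eval] at this
    rw [sub_add_cancel] at this
    rw [← this]; congr 1; ring
  have h4 : ∀ n : ℕ, P.eval ((n : ℂ) * (x - y)) = P.eval 0 := by
    intro n
    induction n with
    | zero => simp
    | succ n ih =>
      rw [← ih, ← h3 ((n : ℂ) * (x - y))]; congr 1; push_cast; ring
  have h5 : P = C (P.eval 0) := by
    apply eq_of_infinite_eval_eq
    apply Set.Infinite.mono (s := Set.range fun n : ℕ => (n : ℂ) * (x - y))
    · rintro _ ⟨n, rfl⟩
      show P.eval ((n : ℂ) * (x - y)) = (C (P.eval 0)).eval ((n : ℂ) * (x - y))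
      rw [eval_C]
      exact h4 n
    · apply Set.infinite_range_of_injective
      intro m n hmn
      have := mul_right_cancel₀ (sub_ne_zero.2 hxy) hmn
      exact_mod_cast this
  rw [h5, natDegree_C] at hP
  omega

end Pool.Agent.TH975.EP

namespace Pool.Agent.TH975.EP

open Polynomial

theorem sft_coeff (a : ℂ) (P : ℂ[X]) {D : ℕ} (hD : P.natDegree = D + 1) :
    (sft a P).coeff D = P.coeff D + P.coeff (D + 1) * (a * (D + 1 : ℕ)) := by
  unfold sft
  rw [comp_eq_sum_left, sum_over_range' _ _ (D + 2) (by omega)]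
  · simp only [finset_sum_coeff, coeff_C_mul, coeff_X_add_C_pow]
    rw [Finset.sum_range_succ, Finset.sum_range_succ, Finset.sum_eq_zero]
    · have h1 : D + 1 - D = 1 := by omega
      simp [h1]
    · intro k hk
      rw [Nat.choose_eq_zero_of_lt (Finset.mem_range.1 hk)]
      simp
  · intro n; simp

theorem dif_wt_ge {A B x y τ : ℂ} {P : ℂ[X]} (h : A = τ * B) (hA : A ≠ 0) (hxy : x ≠ y) :
    wt P ≤ wt (dif A B x y τ P) + 1 := by
  by_cases hP : P = 0
  · subst hP; rw [wt_zero]; omega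
  rcases Nat.eq_zero_or_pos P.natDegree with h0 | h0
  · rw [wt_of_ne hP, h0]; omega
  · obtain ⟨D, hD⟩ : ∃ D, P.natDegree = D + 1 := ⟨P.natDegree - 1, by omega⟩
    have h1 : (dif A B x y τ P).coeff D = A * (P.coeff (D + 1) * ((x - y) * (D + 1 : ℕ))) := by
      simp only [dif, coeff_sub, coeff_C_mul, sft_coeff _ P hD]
      rw [h]; ring
    have h2 : P.coeff (D + 1) ≠ 0 := by
      rw [← hD]; exact leadingCoeff_ne_zero.2 hP
    have h3 : (dif A B x y τ P).coeff D ≠ 0 := by
      rw [h1]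
      refine mul_ne_zero hA (mul_ne_zero h2 (mul_ne_zero (sub_ne_zero.2 hxy) ?_))
      exact_mod_cast Nat.succ_ne_zero D
    rw [wt_of_ne hP, hD]
    have h4 : ¬ wt (dif A B x y τ P) ≤ D := by
      intro h5
      rw [wt_le_iff, mem_degreeLT, degree_lt_iff_coeff_zero] at h5
      exact h3 (h5 D le_rfl)
    omega

theorem dif_wt_eq {A B x y τ : ℂ} {P : ℂ[X]} (h : A ≠ τ * B) : wt (dif A B x y τ P) = wt P := by
  apply le_antisymm (dif_wt_le _ _ _ _ _ _)
  by_cases hP : P = 0
  · subst hP; rw [wt_zero]; omega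
  rw [wt_of_ne hP]
  have h4 : ¬ wt (dif A B x y τ P) ≤ P.natDegree := by
    intro h5
    rw [wt_le_iff, mem_degreeLT, degree_lt_iff_coeff_zero] at h5
    have h6 := h5 P.natDegree le_rfl
    rw [dif_coeff] at h6
    rcases mul_eq_zero.1 h6 with h1 | h1
    · exact h (sub_eq_zero.1 h1)
    · exact hP (leadingCoeff_eq_zero.1 h1)
  omega

end Pool.Agent.TH975.EP
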