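import Pool.Agent.TH975.EP.Cube
import Pool.Agent.TH975.EP.Poly

/-! Growth of the spaces spanned by the values of exponential polynomials on cubes. -/

namespace Pool.Agent.TH975.EP

open Polynomial Module

/-- the algebraic numbers -/
noncomputable abbrev QB : IntermediateField ℚ ℂ := algebraicClosure ℚ ℂ

theorem mem_QB {z : ℂ} : z ∈ QB ↔ IsAlgebraic ℚ z := mem_algebraicClosure_iff

/-- multiplication by `t` -/
noncomputable def mu (t : ℂ) : ℂ →ₗ[QB] ℂ := LinearMap.mulLeft QB t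

theorem mu_apply (t z : ℂ) : mu t z = t * z := rfl

theorem mu_inj {t : ℂ} (ht : t ≠ 0) : Function.Injective (mu t) := fun _ _ h =>
  mul_left_cancel₀ ht h

theorem alg_of_stable (V : Submodule QB ℂ) [FiniteDimensional QB V] (hV : V ≠ ⊥) (t : ℂ)
    (h : ∀ v ∈ V, t * v ∈ V) : IsAlgebraic ℚ t := by
  let f : V →ₗ[QB] V := (mu t).restrict h
  have hf : ∀ v : V, ((f v : V) : ℂ) = t * v := fun v => rfl
  obtain ⟨p, hp, hp0⟩ := Algebra.IsIntegral.isIntegral (R := QB) f
  obtain ⟨v, hv, hv0⟩ := Submodule.exists_mem_ne_zero_of_ne_bot hV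
  have h1 : ∀ q : QB[X], (((aeval f q) (⟨v, hv⟩ : V) : V) : ℂ) = aeval t q * v := by
    intro q
    induction q using Polynomial.induction_on' with
    | add p q hp hq =>
      rw [map_add, map_add, LinearMap.add_apply, Submodule.coe_add, hp, hq, add_mul]
    | monomial n a =>
      rw [aeval_monomial, aeval_monomial]
      have h2 : ∀ n : ℕ, (((f ^ n) (⟨v, hv⟩ : V) : V) : ℂ) = t ^ n * v := by
        intro n
        induction n with
        | zero => simp
        | succ n ih =>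
          rw [pow_succ', Module.End.mul_apply, hf, ih, pow_succ']
          ring
      rw [Module.algebraMap_end_eq_smul_id, ]
      show (((a • (f ^ n) (⟨v, hv⟩ : V)) : V) : ℂ) = _
      rw [Submodule.coe_smul, h2, Algebra.smul_def, mul_assoc]
  have h3 := h1 p
  have h4 : aeval f p = 0 := hp0
  rw [h4] at h3
  have h5 : aeval t p * v = 0 := by rw [← h3]; simp
  have h6 : aeval t p = 0 := (mul_eq_zero.1 h5).resolve_right hv0
  have h7 : IsAlgebraic QB t := ⟨p, hp.ne_zero, h6⟩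
  haveI : Algebra.IsAlgebraic ℚ QB := algebraicClosure.isAlgebraic ℚ ℂ
  exact h7.restrictScalars ℚ

theorem finrank_comap_inf {V : Submodule QB ℂ} [FiniteDimensional QB V] {P Q : ℂ} (hP : P ≠ 0)
    (hQ : Q ≠ 0) (ht : Transcendental ℚ (Q / P)) (hne : V.comap (mu P) ⊓ V.comap (mu Q) ≠ ⊥) :
    ∃ _ : FiniteDimensional QB (V.comap (mu P) ⊓ V.comap (mu Q) : Submodule QB ℂ),
      finrank QB (V.comap (mu P) ⊓ V.comap (mu Q) : Submodule QB ℂ) + 1 ≤ finrank QB V := by
  set W := V.comap (mu P) ⊓ V.comap (mu Q) with hW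
  have hWP : W.map (mu P) ≤ V := by
    rintro _ ⟨w, hw, rfl⟩
    exact hw.1
  have hWQ : W.map (mu Q) ≤ V := by
    rintro _ ⟨w, hw, rfl⟩
    exact hw.2
  have hf : FiniteDimensional QB (W.map (mu P)) := Submodule.finiteDimensional_of_le hWP
  have e : W ≃ₗ[QB] W.map (mu P) := Submodule.equivMapOfInjective _ (mu_inj hP) W
  have hWf : FiniteDimensional QB W := Module.Finite.equiv e.symm
  refine ⟨hWf, ?_⟩
  have h1 : finrank QB W = finrank QB (W.map (mu P)) := e.finrank_eq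
  have h2 : finrank QB W = finrank QB (W.map (mu Q)) :=
    (Submodule.equivMapOfInjective _ (mu_inj hQ) W).finrank_eq
  have h3 : finrank QB (W.map (mu P)) ≤ finrank QB V := Submodule.finrank_mono hWP
  by_contra hcon
  have h4 : finrank QB W = finrank QB V := by omega
  have e1 : W.map (mu P) = V := Submodule.eq_of_le_of_finrank_eq hWP (by rw [← h1, h4])
  have e2 : W.map (mu Q) = V := Submodule.eq_of_le_of_finrank_eq hWQ (by rw [← h2, h4])
  apply ht
  have hV : V ≠ ⊥ := by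
    intro h0
    rw [h0] at e1
    apply hne
    rw [eq_bot_iff]
    intro x hx
    have : mu P x ∈ W.map (mu P) := ⟨x, hx, rfl⟩
    rw [e1, Submodule.mem_bot] at this
    rw [Submodule.mem_bot]
    exact mu_inj hP (by rw [this, map_zero])
  apply alg_of_stable V hV
  intro v hv
  rw [← e1] at hv
  obtain ⟨w, hw, rfl⟩ := hv
  have : Q / P * (mu P w) = mu Q w := by
    rw [mu_apply, mu_apply]; field_simp
  rw [this, ← e2]
  exact ⟨w, hw, rfl⟩

/-- admissible cubes in the exponent `c` -/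
def Good (c : ℝ) (l : List (ℝ × ℝ)) : Prop :=
  ∀ e ∈ l, 0 < e.1 ∧ 0 < e.2 ∧ e.1 ≠ e.2 ∧ Transcendental ℚ (((e.2 / e.1) ^ c : ℝ) : ℂ)

theorem Good.tail {c : ℝ} {e : ℝ × ℝ} {l : List (ℝ × ℝ)} (h : Good c (e :: l)) : Good c l :=
  fun e' he' => h e' (List.mem_cons_of_mem _ he')

theorem Good.pos {c : ℝ} {l : List (ℝ × ℝ)} (h : Good c l) : ∀ e ∈ l, 0 < e.1 ∧ 0 < e.2 :=
  fun e he => ⟨(h e he).1, (h e he).2.1⟩

/-- the powers `v ^ c` on a cube -/
theorem growth {c : ℝ} {lam : ℂ} (hlam : lam ≠ 0) : ∀ (l : List (ℝ × ℝ)), Good c l →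
    ∀ a : ℝ, 0 < a → ∀ (V : Submodule QB ℂ) [FiniteDimensional QB V],
      (∀ v ∈ vals l a, lam * ((v ^ c : ℝ) : ℂ) ∈ V) → l.length + 1 ≤ finrank QB V := by
  intro l
  induction l with
  | nil =>
    intro _ a ha V _ hV
    have h1 := hV a (by simp [vals])
    have h2 : lam * ((a ^ c : ℝ) : ℂ) ≠ 0 :=
      mul_ne_zero hlam (by exact_mod_cast (Real.rpow_pos_of_pos ha c).ne')
    have h3 : V ≠ ⊥ := fun h => h2 (by rw [h] at h1; simpa using h1)
    have := Submodule.one_le_finrank_iff.2 h3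
    simpa using this
  | cons e l ih =>
    intro hl a ha V _ hV
    obtain ⟨h1, h2, h3, h4⟩ := hl e (List.mem_cons_self ..)
    have hP : ((e.1 ^ c : ℝ) : ℂ) ≠ 0 := by exact_mod_cast (Real.rpow_pos_of_pos h1 c).ne'
    have hQ : ((e.2 ^ c : ℝ) : ℂ) ≠ 0 := by exact_mod_cast (Real.rpow_pos_of_pos h2 c).ne'
    have ht : Transcendental ℚ (((e.2 ^ c : ℝ) : ℂ) / ((e.1 ^ c : ℝ) : ℂ)) := by
      rw [Real.div_rpow h2.le h1.le] at h4
      push_cast at h4 ⊢
      exact h4
    have hW : ∀ v ∈ vals l a, lam * ((v ^ c : ℝ) : ℂ) ∈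
        V.comap (mu ((e.1 ^ c : ℝ) : ℂ)) ⊓ V.comap (mu ((e.2 ^ c : ℝ) : ℂ)) := by
      intro v hv
      have hv0 := vals_pos hl.tail.pos ha v hv
      obtain ⟨h5, h6⟩ := mem_vals_cons (e := e) hv
      refine ⟨?_, ?_⟩
      · have := hV _ h5
        rw [Real.mul_rpow h1.le hv0.le] at this
        show ((e.1 ^ c : ℝ) : ℂ) * (lam * ((v ^ c : ℝ) : ℂ)) ∈ V
        rw [show ((e.1 ^ c : ℝ) : ℂ) * (lam * ((v ^ c : ℝ) : ℂ)) =
          lam * (((e.1 ^ c * v ^ c : ℝ)) : ℂ) by push_cast; ring]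
        exact this
      · have := hV _ h6
        rw [Real.mul_rpow h2.le hv0.le] at this
        show ((e.2 ^ c : ℝ) : ℂ) * (lam * ((v ^ c : ℝ) : ℂ)) ∈ V
        rw [show ((e.2 ^ c : ℝ) : ℂ) * (lam * ((v ^ c : ℝ) : ℂ)) =
          lam * (((e.2 ^ c * v ^ c : ℝ)) : ℂ) by push_cast; ring]
        exact this
    have hne : V.comap (mu ((e.1 ^ c : ℝ) : ℂ)) ⊓ V.comap (mu ((e.2 ^ c : ℝ) : ℂ)) ≠ ⊥ := by
      intro h0
      have := vals_nonempty l a
      obtain ⟨v, hv⟩ := this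
      have h7 := hW v hv
      rw [h0, Submodule.mem_bot] at h7
      have hv0 := vals_pos hl.tail.pos ha v hv
      exact mul_ne_zero hlam (by exact_mod_cast (Real.rpow_pos_of_pos hv0 c).ne') h7
    obtain ⟨hf, hlt⟩ := finrank_comap_inf hP hQ ht hne
    have := ih hl.tail a ha _ hW
    rw [List.length_cons]
    omega

/-- the exponential polynomial with exponents in `C` -/
noncomputable def ev (C : Finset ℝ) (Q : ℝ → ℂ[X]) (v : ℝ) : ℂ :=
  ∑ c ∈ C, (Q c).eval ((Real.log v : ℝ) : ℂ) * ((v ^ c : ℝ) : ℂ)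

/-- the coefficients of `v ↦ ev C Q (u v)` -/
noncomputable def shf (u : ℝ) (Q : ℝ → ℂ[X]) (c : ℝ) : ℂ[X] :=
  Polynomial.C ((u ^ c : ℝ) : ℂ) * sft ((Real.log u : ℝ) : ℂ) (Q c)

theorem ev_shf (C : Finset ℝ) (Q : ℝ → ℂ[X]) {u v : ℝ} (hu : 0 < u) (hv : 0 < v) :
    ev C (shf u Q) v = ev C Q (u * v) := by
  unfold ev shf
  apply Finset.sum_congr rfl
  intro c _
  rw [eval_mul, eval_C, sft_eval, Real.log_mul hu.ne' hv.ne', Real.mul_rpow hu.le hv.le]
  push_cast
  rw [add_comm ((Real.log v : ℝ) : ℂ)]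
  ring

/-- total weight -/
noncomputable def W (C : Finset ℝ) (Q : ℝ → ℂ[X]) : ℕ := ∑ c ∈ C, wt (Q c)

/-- the difference operator along one side of a cube -/
noncomputable def dQ (e : ℝ × ℝ) (τ : ℂ) (Q : ℝ → ℂ[X]) (c : ℝ) : ℂ[X] :=
  dif ((e.2 ^ c : ℝ) : ℂ) ((e.1 ^ c : ℝ) : ℂ) ((Real.log e.2 : ℝ) : ℂ) ((Real.log e.1 : ℝ) : ℂ) τ
    (Q c)

theorem ev_dQ (C : Finset ℝ) (Q : ℝ → ℂ[X]) {e : ℝ × ℝ} (h1 : 0 < e.1) (h2 : 0 < e.2) (τ : ℂ)
    {v : ℝ} (hv : 0 < v) : ev C (dQ e τ Q) v = ev C Q (e.2 * v) - τ * ev C Q (e.1 * v) := by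
  rw [← ev_shf C Q h1 hv, ← ev_shf C Q h2 hv]
  unfold ev
  rw [Finset.mul_sum, ← Finset.sum_sub_distrib]
  apply Finset.sum_congr rfl
  intro c _
  unfold dQ dif shf
  rw [eval_sub, eval_mul (p := Polynomial.C τ), eval_C]
  ring

theorem rpow_ne {b x y : ℝ} (hb : 0 < b) (hb1 : b ≠ 1) (hxy : x ≠ y) : b ^ x ≠ b ^ y := by
  intro h
  have h1 := congrArg Real.log h
  rw [Real.log_rpow hb, Real.log_rpow hb] at h1
  apply hxy
  refine mul_right_cancel₀ ?_ h1
  intro h0
  rcases Real.log_eq_zero.mp h0 with h1 | h1 | h1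
  · exact hb.ne' h1
  · exact hb1 h1
  · linarith

/-- the number of sides needed in the rank lemma -/
def KR : ℕ → ℕ → ℕ
  | 0, _ => 0
  | T + 1, s => max (KR T (2 * s) + 1) (s + 1)

/-- **Rank lemma**: the values on large cubes span spaces of large dimension. -/
theorem rank (C : Finset ℝ) {c0 : ℝ} (hc0 : c0 ∈ C) (D0 : ℕ) (G : List (ℝ × ℝ) → Prop)
    (hG0 : ∀ e l, G (e :: l) → G l) (hG1 : ∀ e l, G (e :: l) → 0 < e.1 ∧ 0 < e.2 ∧ e.1 ≠ e.2)
    (TG : ∀ P : ℂ[X], wt P = D0 + 1 → ∀ l, G l → ∀ a : ℝ, 0 < a →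
      ∀ (V : Submodule QB ℂ) [FiniteDimensional QB V],
        (∀ v ∈ vals l a, P.eval ((Real.log v : ℝ) : ℂ) * ((v ^ c0 : ℝ) : ℂ) ∈ V) →
          l.length ≤ finrank QB V) :
    ∀ T s : ℕ, ∀ Q : ℝ → ℂ[X], W C Q ≤ T → D0 + 1 ≤ wt (Q c0) → ∀ l, G l →
      KR T s ≤ l.length → ∀ a : ℝ, 0 < a → ∀ (V : Submodule QB ℂ) [FiniteDimensional QB V],
        (∀ v ∈ vals l a, ev C Q v ∈ V) → s < finrank QB V := by
  have hGpos : ∀ l, G l → ∀ e ∈ l, 0 < e.1 ∧ 0 < e.2 := by
    intro l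
    induction l with
    | nil => intro _ e he; simp at he
    | cons e l ih =>
      intro h e' he'
      rcases List.mem_cons.1 he' with h1 | h1
      · rw [h1]; exact ⟨(hG1 e l h).1, (hG1 e l h).2.1⟩
      · exact ih (hG0 e l h) e' h1
  intro T
  induction T with
  | zero =>
    intro s Q hQ h0
    exfalso
    have h1 : wt (Q c0) ≤ W C Q :=
      Finset.single_le_sum (f := fun c => wt (Q c)) (fun _ _ => Nat.zero_le _) hc0
    omega
  | succ T ih =>
    intro s Q hQ h0 l hl hlen a ha V _ hV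
    have hK := ih (2 * s)
    have hlen1 : KR T (2 * s) + 1 ≤ l.length := (le_max_left _ _).trans hlen
    have hlen2 : s + 1 ≤ l.length := (le_max_right _ _).trans hlen
    by_cases h : ∃ c1 ∈ C, Q c1 ≠ 0 ∧ (c1 ≠ c0 ∨ (c1 = c0 ∧ D0 + 2 ≤ wt (Q c0)))
    · obtain ⟨c1, hc1, hQ1, hcase⟩ := h
      obtain ⟨e, l', rfl⟩ : ∃ e l', l = e :: l' := by
        cases l with
        | nil => simp at hlen1
        | cons e l' => exact ⟨e, l', rfl⟩
      obtain ⟨he1, he2, hne⟩ := hG1 e l' hl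
      set τ : ℂ := ((e.2 ^ c1 : ℝ) : ℂ) / ((e.1 ^ c1 : ℝ) : ℂ) with hτ
      have hB : ∀ c : ℝ, ((e.1 ^ c : ℝ) : ℂ) ≠ 0 := fun c => by
        exact_mod_cast (Real.rpow_pos_of_pos he1 c).ne'
      have hA : ∀ c : ℝ, ((e.2 ^ c : ℝ) : ℂ) ≠ 0 := fun c => by
        exact_mod_cast (Real.rpow_pos_of_pos he2 c).ne'
      have hAB : ((e.2 ^ c1 : ℝ) : ℂ) = τ * ((e.1 ^ c1 : ℝ) : ℂ) := by
        rw [hτ, div_mul_cancel₀ _ (hB c1)]
      have hlog : ((Real.log e.2 : ℝ) : ℂ) ≠ ((Real.log e.1 : ℝ) : ℂ) := by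
        intro h1
        have h2 : Real.log e.2 = Real.log e.1 := by exact_mod_cast h1
        exact hne (Real.log_injOn_pos he1 he2 h2.symm)
      have hW : W C (dQ e τ Q) ≤ T := by
        have h1 : W C (dQ e τ Q) < W C Q := by
          apply Finset.sum_lt_sum
          · intro c _; exact dif_wt_le _ _ _ _ _ _
          · exact ⟨c1, hc1, dif_wt_lt hAB hQ1⟩
        omega
      have h1 : D0 + 1 ≤ wt (dQ e τ Q c0) := by
        rcases hcase with hcase | ⟨hcase, h2⟩
        · unfold dQ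
          rw [dif_wt_eq]
          · exact h0
          · intro h2
            have h3 : ((e.2 / e.1) ^ c0 : ℝ) = (e.2 / e.1) ^ c1 := by
              rw [Real.div_rpow he2.le he1.le, Real.div_rpow he2.le he1.le]
              have h4 : (((e.2 ^ c0 / e.1 ^ c0 : ℝ)) : ℂ) = ((e.2 ^ c1 / e.1 ^ c1 : ℝ) : ℂ) := by
                push_cast
                rw [div_eq_iff (hB c0), h2, hτ]
              exact_mod_cast h4
            exact rpow_ne (div_pos he2 he1) (fun h5 => hne (by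
              rw [div_eq_one_iff_eq he1.ne'] at h5; exact h5.symm)) (Ne.symm hcase) h3
        · subst hcase
          have := dif_wt_ge (x := ((Real.log e.2 : ℝ) : ℂ)) (y := ((Real.log e.1 : ℝ) : ℂ))
            (P := Q c1) hAB (hA c1) hlog
          unfold dQ
          omega
      have hfd : FiniteDimensional QB (V.map (mu τ)) := inferInstance
      have hf2 : FiniteDimensional QB (V ⊔ V.map (mu τ) : Submodule QB ℂ) := inferInstance
      have h2 := hK (dQ e τ Q) hW h1 l' (hG0 e l' hl) (by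
        rw [List.length_cons] at hlen1; omega) a ha (V ⊔ V.map (mu τ)) (by
        intro v hv
        have hv0 := vals_pos (hGpos l' (hG0 e l' hl)) ha v hv
        obtain ⟨h5, h6⟩ := mem_vals_cons (e := e) hv
        rw [ev_dQ C Q he1 he2 τ hv0]
        refine Submodule.sub_mem _ (Submodule.mem_sup_left (hV _ h6)) (Submodule.mem_sup_right ?_)
        exact ⟨_, hV _ h5, rfl⟩)
      have h3 : finrank QB (V ⊔ V.map (mu τ) : Submodule QB ℂ) ≤
          finrank QB V + finrank QB (V.map (mu τ)) :=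
        Submodule.finrank_add_le_finrank_add_finrank _ _
      have h4 : finrank QB (V.map (mu τ)) ≤ finrank QB V := Submodule.finrank_map_le _ _
      omega
    · push Not at h
      have h1 : wt (Q c0) = D0 + 1 := by
        by_contra hne
        have h2 : Q c0 ≠ 0 := fun h3 => by rw [h3, wt_zero] at h0; omega
        have := (h c0 hc0 h2).2 rfl
        omega
      have h2 : ∀ v, ev C Q v = (Q c0).eval ((Real.log v : ℝ) : ℂ) * ((v ^ c0 : ℝ) : ℂ) := by
        intro v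
        unfold ev
        apply Finset.sum_eq_single c0
        · intro c hc hne
          have : Q c = 0 := by
            by_contra h3
            exact hne ((h c hc h3).1)
          rw [this, eval_zero, zero_mul]
        · intro h3; exact absurd hc0 h3
      have := TG (Q c0) h1 l hl a ha V (fun v hv => by rw [← h2]; exact hV v hv)
      omega

/-- the rank lemma for irrational exponents -/
theorem rank_a (C : Finset ℝ) {c0 : ℝ} (hc0 : c0 ∈ C) :
    ∀ T s : ℕ, ∀ Q : ℝ → ℂ[X], W C Q ≤ T → Q c0 ≠ 0 → ∀ l, Good c0 l →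
      KR T s ≤ l.length → ∀ a : ℝ, 0 < a → ∀ (V : Submodule QB ℂ) [FiniteDimensional QB V],
        (∀ v ∈ vals l a, ev C Q v ∈ V) → s < finrank QB V := by
  intro T s
  have hK := rank C hc0 0 (Good c0) (fun e l h => h.tail)
    (fun e l h => by
      obtain ⟨h1, h2, h3, -⟩ := h e (List.mem_cons_self ..)
      exact ⟨h1, h2, h3⟩)
    (by
      intro P hP l hl a ha V _ hV
      have hne : P ≠ 0 := fun h => by rw [h, wt_zero] at hP; omega
      rw [wt_of_ne hne] at hP
      have h1 : P = Polynomial.C (P.coeff 0) := eq_C_of_natDegree_eq_zero (by omega)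
      have h2 : P.coeff 0 ≠ 0 := fun h => hne (by rw [h1, h, C_0])
      have := growth h2 l hl a ha V (fun v hv => by
        have := hV v hv
        rw [h1, eval_C] at this
        exact this)
      omega) T s
  intro Q hQ h0
  refine hK Q hQ ?_
  have := wt_pos h0
  omega

end Pool.Agent.TH975.EP
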