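import Pool.Agent.TH975.EP.SG
import Pool.Agent.TH975.EP.Main

/-! The strong version of the linear subgroup theorem for matrices of rank `r` with `r + 1` rows. -/

set_option autoImplicit false

namespace Pool.Agent.TH975.EP.SG

open Module Finset Pool.Agent.H301R2.ZG Pool.Agent.H301R2.SSE

section main

variable {d N r : ℕ} (K : IntermediateField ℚ ℂ) [FiniteDimensional ℚ K]

variable (x : Fin r → Fin d → ℂ) (y : Fin r → Fin N → ℂ) (β : Fin d → Fin N → ℂ)
  (u : Fin d → Fin N → Fin (dg K) → ℂ)

/-- logarithms at the points -/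
noncomputable def um (i : Fin d) (h : Fin (dg K)) (p : Fin (N * dg K)) : ℂ :=
  ∑ h0, (cc K (bs K (f2 p)) h0 h : ℂ) * u i (f1 p) h0

/-- algebraic parts at the points -/
noncomputable def av (i : Fin d) (p : Fin (N * dg K)) : ℂ := om K (f2 p) * β i (f1 p)

/-- the points -/
noncomputable def yv (ρ : Fin r) (p : Fin (N * dg K)) : ℂ := om K (f2 p) * y ρ (f1 p)

theorem sum_yv (i : Fin d) (p : Fin (N * dg K)) :
    ∑ ρ, x ρ i * yv K y ρ p = om K (f2 p) * ∑ ρ, x ρ i * y ρ (f1 p) := by
  rw [Finset.mul_sum]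
  apply Finset.sum_congr rfl
  intro ρ _
  unfold yv
  ring

theorem factA (hxy : ∀ i j, ∑ ρ, x ρ i * y ρ j = β i j + ∑ h, om K h * u i j h) (i : Fin d)
    (p : Fin (N * dg K)) :
    ∑ ρ, x ρ i * yv K y ρ p = av K β i p + ∑ h, om K h * um K u i h p := by
  rw [sum_yv]
  unfold av um
  rw [hxy, mul_add, Finset.mul_sum]
  congr 1
  have h2 : ∀ h0, om K (f2 p) * (om K h0 * u i (f1 p) h0) =
      ∑ h, (cc K (bs K (f2 p)) h0 h : ℂ) * om K h * u i (f1 p) h0 := by
    intro h0
    have := mul_om K (bs K (f2 p)) h0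
    rw [← mul_assoc, ← Finset.sum_mul, ← this]
    rfl
  simp only [h2, Finset.mul_sum]
  rw [Finset.sum_comm]
  apply Finset.sum_congr rfl; intro h _
  apply Finset.sum_congr rfl; intro h0 _
  ring

theorem um_mem (hu : ∀ i j h, u i j h ∈ Lg) (i : Fin d) (h : Fin (dg K)) (p : Fin (N * dg K)) :
    um K u i h p ∈ Lg := by
  unfold um
  apply Submodule.sum_mem
  intro h0 _
  have := Lg.smul_mem (cc K (bs K (f2 p)) h0 h) (hu i (f1 p) h0)
  rwa [Rat.smul_def] at this

end main

theorem phi_mul (φ : ℂ →ₗ[QB] QB) {a : ℂ} (ha : IsAlgebraic ℚ a) (z : ℂ) :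
    ((φ (a * z) : QB) : ℂ) = a * ((φ z : QB) : ℂ) := by
  have h1 : a * z = (⟨a, mem_QB.2 ha⟩ : QB) • z := by
    rw [Algebra.smul_def]; rfl
  rw [h1, map_smul, smul_eq_mul]
  rfl

theorem strong_core {N r : ℕ} (K : IntermediateField ℚ ℂ) [FiniteDimensional ℚ K]
    (x : Fin r → Fin (r + 1) → ℂ) (y : Fin r → Fin N → ℂ) (β : Fin (r + 1) → Fin N → ℂ)
    (u : Fin (r + 1) → Fin N → Fin (dg K) → ℂ)
    (hβ : ∀ i j, IsAlgebraic ℚ (β i j)) (hu : ∀ i j h, u i j h ∈ Lg)
    (hxy : ∀ i j, ∑ ρ, x ρ i * y ρ j = β i j + ∑ h, om K h * u i j h)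
    (hrank : ∀ α : Fin (r + 1) → ℂ, (∀ j, IsAlgebraic ℚ (α j)) → α ≠ 0 → 3 * (r + 1) ^ 2 <
      finrank QB (Submodule.span QB (Set.range fun p => ∑ j, α j * ∑ ρ, x ρ j * y ρ p))) :
    False := by
  classical
  have hD : 1 ≤ dg K := Nat.one_le_iff_ne_zero.mpr (NeZero.ne (dg K))
  have hom0 : om K 0 ≠ 0 := om_ne K 0
  obtain ⟨κ, hκd⟩ : ∃ κ, κ = (r + 1) * (2 * dg K + 1) := ⟨_, rfl⟩
  obtain ⟨μ, hμ⟩ : ∃ μ, μ + 1 = κ := by
    refine ⟨κ - 1, ?_⟩
    have : 0 < κ := by rw [hκd]; positivity
    omega
  have hcount : (κ + 1) * (r + (r + 1) * dg K) + 1 ≤ (r + 1) * κ + ((r + 1) * dg K) * μ := by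
    have h1 : ((r + 1) * dg K) * μ + (r + 1) * dg K = ((r + 1) * dg K) * κ := by
      rw [← hμ]; ring
    have h2 : κ = 2 * ((r + 1) * dg K) + r + 1 := by rw [hκd]; ring
    generalize (r + 1) * dg K = a at *
    nlinarith
  -- apply the obstruction theorem
  set A : Finset (Fin ((r + 1) * dg K)) := Finset.univ.filter (fun e => f2 e = 0) with hA
  have hAcard : A.card = r + 1 := by
    have : A = (Finset.univ : Finset (Fin (r + 1))).image (fun i => pr i (0 : Fin (dg K))) := by
      ext e
      simp only [hA, Finset.mem_filter, Finset.mem_univ, true_and, Finset.mem_image]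
      constructor
      · intro h; exact ⟨f1 e, by rw [← h, pr_f]⟩
      · rintro ⟨i, rfl⟩; exact f2_pr i 0
    rw [this, Finset.card_image_of_injective]
    · simp
    · intro i i' h
      have := congrArg f1 h
      simpa using this
  set ω : Fin ((r + 1) * dg K) → Fin (N * dg K) → ℂ := fun e p =>
    if f2 e = 0 then av K β (f1 e) p else um K u (f1 e) (f2 e) p with hω
  set uu : Fin ((r + 1) * dg K) → Fin (N * dg K) → ℂ := fun q p => um K u (f1 q) (f2 q) p with huu
  obtain ⟨Af, Rm, W0, G0, hAfA, hne0, hW0, hG0, hineq⟩ :=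
    Pool.Agent.H335R2.Obs.obstruction_of zeg (w := (r + 1) * dg K) (b := (r + 1) * dg K)
      (l := N * dg K) (r := r) A
      (gam (om K)) ω uu (fun ρ q => if f2 q = 0 then x ρ (f1 q) / om K 0 else 0)
      (fun ρ p => yv K y ρ p)
      (gam_alg (om K) (om_alg K))
      (by
        intro e he p
        have he' : f2 e = 0 := (Finset.mem_filter.mp he).2
        simp only [hω, if_pos he']
        exact (om_alg K _).mul (hβ _ _))
      (fun q p => um_mem K u hu _ _ p)
      (by
        intro q p
        have h1 := sum_gam (om K) hom0 (fun i => av K β i p) (fun i h => um K u i h p)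
          (fun i => ∑ ρ, x ρ i * yv K y ρ p) (fun i => factA K x y β u hxy i p) q
        simp only [huu, hω]
        rw [h1]
        congr 1
        by_cases hq : f2 q = 0
        · simp only [if_pos hq]
          rw [Finset.sum_div]
          apply Finset.sum_congr rfl
          intro ρ _
          ring
        · simp only [if_neg hq, zero_mul, Finset.sum_const_zero])
      κ μ 1 hμ (by rw [hAcard]; exact hcount)
  have hAf : ∀ a ∈ Af, ∀ e, f2 e ≠ 0 → a e = 0 := by
    intro a ha e he
    exact hAfA a ha e (by simp [hA, he])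
  set wc := (r + 1) * dg K - finrank ℂ W0 with hwc
  set bb := N * dg K - finrank ℤ G0 with hbb
  set d0 := finrank ℂ Af with hd0
  set d1 := finrank ℤ Rm with hd1
  have hle : wc * κ + bb * 1 ≤ d0 * κ + d1 * μ := by
    rcases hineq with h | h
    · exact h.le
    · exact h.1.le
  -- rank-nullity
  have hrn := LinearMap.finrank_range_add_finrank_ker (Psi (om K) Af Rm)
  have hprod : finrank ℂ (Af × cSpan Rm) = d0 + finrank ℂ (cSpan Rm) := Module.finrank_prod
  rw [hprod] at hrn
  have hW := Psi_W0 (om K) Af Rm W0 hW0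
  have hdc : d1 ≤ finrank ℂ (cSpan Rm) := finrank_int_le_c Rm
  set c' := finrank ℂ (LinearMap.ker (Psi (om K) Af Rm)) with hc'
  -- the kernel embeds in `ℂ ^ (r + 1)`
  let κ0 : (Af × cSpan Rm) →ₗ[ℂ] (Fin (r + 1) → ℂ) :=
    { toFun := fun v i => (v.2 : Fin ((r + 1) * dg K) → ℂ) (pr i 0) / om K 0
      map_add' := by intro v v'; funext i; simp [add_div]
      map_smul' := by intro c v; funext i; simp [mul_div_assoc] }
  have hkinj : ∀ v ∈ LinearMap.ker (Psi (om K) Af Rm), κ0 v = 0 → v = 0 := by
    intro v hv hv0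
    obtain ⟨h1, h2⟩ := Psi_ker (om K) Af Rm hom0 hAf (LinearMap.mem_ker.mp hv)
    have h3 : ∀ i, (v.2 : Fin ((r + 1) * dg K) → ℂ) (pr i 0) / om K 0 = 0 := fun i => congrFun hv0 i
    apply Prod.ext
    · apply Subtype.ext
      funext e
      rw [← pr_f e]
      by_cases he : f2 e = 0
      · rw [he, h1, h3]; rfl
      · rw [hAf _ v.1.2 _ (by rw [f2_pr]; exact he)]; rfl
    · apply Subtype.ext
      funext e
      rw [← pr_f e, h2, h3, zero_mul]; rfl
  have hc2 : c' ≤ r + 1 := by
    have h1 : Function.Injective (κ0.comp (LinearMap.ker (Psi (om K) Af Rm)).subtype) := by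
      intro a b hab
      have h3 : κ0 ((a : Af × cSpan Rm) - (b : Af × cSpan Rm)) = 0 := by
        rw [map_sub]; exact sub_eq_zero.2 hab
      have h4 := hkinj _ (Submodule.sub_mem _ a.2 b.2) h3
      exact Subtype.ext (sub_eq_zero.1 h4)
    have := LinearMap.finrank_le_finrank_of_injective h1
    rw [Module.finrank_fintype_fun_eq_card, Fintype.card_fin] at this
    exact this
  have hkey : d0 + d1 ≤ wc + c' := by omega
  have hfin : d1 + bb ≤ c' * κ := by
    have h1 : (d0 + d1) * κ ≤ (wc + c') * κ := Nat.mul_le_mul_right _ hkey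
    have h2 : d1 * κ = d1 * μ + d1 := by rw [← hμ]; ring
    nlinarith
  -- names for the values at `s`
  let Sv : (Fin (N * dg K) → ℤ) → Fin (r + 1) → ℂ := fun s i => ∑ p, av K β i p * (s p : ℂ)
  let Uv : (Fin (N * dg K) → ℤ) → Fin ((r + 1) * dg K) → ℂ := fun s q => ∑ p, uu q p * (s p : ℂ)
  have hxY : ∀ s i, ∑ p, (om K (f2 p) * ∑ ρ, x ρ i * y ρ (f1 p)) * (s p : ℂ) =
      Sv s i + ∑ h, om K h * Uv s (pr i h) := by
    intro s i
    simp only [Sv, Uv, Finset.mul_sum]
    rw [Finset.sum_comm, ← Finset.sum_add_distrib]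
    apply Finset.sum_congr rfl
    intro p _
    have h1 := factA K x y β u hxy i p
    rw [sum_yv] at h1
    have h2 : ∑ h, om K h * (uu (pr i h) p * (s p : ℂ)) =
        (∑ h, om K h * um K u i h p) * (s p : ℂ) := by
      rw [Finset.sum_mul]
      apply Finset.sum_congr rfl
      intro h _
      simp only [huu, f1_pr, f2_pr]
      ring
    rw [h2, ← Finset.mul_sum, h1]
    ring
  have hG2 : ∀ s ∈ G0, ∀ m ∈ Rm, ∃ n : ℤ, ∑ q, (m q : ℂ) * Uv s q =
      n * (2 * Real.pi * Complex.I) := by
    intro s hs m hm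
    obtain ⟨n, hn⟩ := ((hG0 s).mp hs).2 m hm
    refine ⟨n, ?_⟩
    rw [← hn]
    apply Finset.sum_congr rfl
    intro q _
    simp only [Uv, Finset.mul_sum]
    apply Finset.sum_congr rfl
    intro p _
    ring
  have hpi : (2 * Real.pi * Complex.I : ℂ) ≠ 0 := by
    have : (Real.pi : ℂ) ≠ 0 := by exact_mod_cast Real.pi_ne_zero
    simp [this]
  obtain ⟨ρ, hρ1, hρ2, hρ3⟩ := int_basis Rm
  -- final case distinction
  rcases Nat.eq_zero_or_pos c' with h0 | hpos
  · -- c' = 0
    rw [h0, zero_mul] at hfin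
    have hd1' : d1 = 0 := by omega
    have hbb' : bb = 0 := by omega
    have hd0' : d0 = 0 := by
      rcases hineq with h | ⟨h, h', h''⟩
      · exfalso
        have h2 : wc * κ + bb * 1 < d0 * κ + d1 * μ := h
        rw [hd1', hbb', zero_mul, zero_mul, add_zero, add_zero] at h2
        have h3 : wc < d0 := lt_of_mul_lt_mul_right h2 (Nat.zero_le _)
        omega
      · have : wc = 0 := h'
        omega
    apply hne0
    constructor
    · exact Submodule.finrank_eq_zero.mp hd0'
    · rw [eq_bot_iff]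
      intro m hm
      obtain ⟨c, hc⟩ := hρ2 m hm
      have : IsEmpty (Fin (finrank ℤ Rm)) := by
        have : finrank ℤ Rm = 0 := hd1'
        rw [this]; infer_instance
      rw [hc]
      simp
  · -- nonzero kernel
    obtain ⟨v, hv0⟩ : ∃ v : LinearMap.ker (Psi (om K) Af Rm), v ≠ 0 := by
      have : Nontrivial (LinearMap.ker (Psi (om K) Af Rm)) :=
        Module.nontrivial_of_finrank_pos (R := ℂ) hpos
      exact exists_ne 0
    have hv0' : (v : Af × cSpan Rm) ≠ 0 := fun h => hv0 (Subtype.ext h)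
    obtain ⟨h1, h2⟩ := Psi_ker (om K) Af Rm hom0 hAf (LinearMap.mem_ker.mp v.2)
    obtain ⟨i0, hi0⟩ : ∃ i, κ0 v i ≠ 0 := by
      by_contra hcon
      push Not at hcon
      exact hv0' (hkinj v v.2 (funext hcon))
    -- a functional
    obtain ⟨φ, hφ⟩ : ∃ φ : ℂ →ₗ[QB] QB, φ (κ0 v i0) ≠ 0 := by
      by_contra hcon
      push Not at hcon
      exact hi0 ((Module.forall_dual_apply_eq_zero_iff QB _).1 hcon)
    let α : Fin (r + 1) → ℂ := fun i => ((φ (κ0 v i) : QB) : ℂ)
    have hα : ∀ i, IsAlgebraic ℚ (α i) := fun i => mem_QB.1 (φ (κ0 v i)).2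
    have hα0 : α ≠ 0 := by
      intro h
      apply hφ
      have := congrFun h i0
      exact Subtype.ext this
    -- coefficients of the kernel element
    obtain ⟨b, hb⟩ : ∃ b : Fin d1 → ℂ, ∀ q, ((v : Af × cSpan Rm).2 : Fin ((r + 1) * dg K) → ℂ) q =
        ∑ k, b k * (ρ k q : ℂ) := by
      have h3 : cSpan Rm ≤ Submodule.span ℂ (Set.range fun k : Fin d1 => fun q =>
          ((ρ k q : ℤ) : ℂ)) := by
        unfold cSpan
        rw [Submodule.span_le]
        rintro _ ⟨m, hm, rfl⟩
        obtain ⟨c, hc⟩ := hρ2 m hm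
        have h4 : (fun j => ((m j : ℤ) : ℂ)) =
            ∑ k : Fin d1, (c k : ℂ) • (fun q => ((ρ k q : ℤ) : ℂ)) := by
          funext j
          rw [hc, Finset.sum_apply, Finset.sum_apply]
          push_cast
          apply Finset.sum_congr rfl
          intro k _
          simp
        show (fun j => ((m j : ℤ) : ℂ)) ∈ _
        rw [h4]
        exact Submodule.sum_mem _ fun k _ => Submodule.smul_mem _ _ (Submodule.subset_span ⟨k, rfl⟩)
      obtain ⟨b, hb⟩ := (Submodule.mem_span_range_iff_exists_fun ℂ).1 (h3 (v : Af × cSpan Rm).2.2)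
      refine ⟨b, fun q => ?_⟩
      rw [← hb, Finset.sum_apply]
      rfl
    have hαh : ∀ i h, om K h * α i = ∑ k, ((φ (b k) : QB) : ℂ) * (ρ k (pr i h) : ℂ) := by
      intro i h
      have h3 : om K h * κ0 v i = ∑ k, (ρ k (pr i h) : ℂ) * b k := by
        have h4 := hb (pr i h)
        rw [h2 i h] at h4
        show om K h * (((v : Af × cSpan Rm).2 : Fin ((r + 1) * dg K) → ℂ) (pr i 0) / om K 0) = _
        rw [mul_comm, h4]
        apply Finset.sum_congr rfl
        intro k _
        ring
      rw [← phi_mul φ (om_alg K h), h3, map_sum]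
      rw [show ((∑ k, φ ((ρ k (pr i h) : ℂ) * b k) : QB) : ℂ) =
        ∑ k, ((φ ((ρ k (pr i h) : ℂ) * b k) : QB) : ℂ) from IntermediateField.coe_sum _ _]
      apply Finset.sum_congr rfl
      intro k _
      rw [phi_mul φ (by exact_mod_cast isAlgebraic_intCast (R := ℚ) (A := ℂ) (ρ k (pr i h)))]
      ring
    have hSalg : ∀ s i, IsAlgebraic ℚ (Sv s i) := by
      intro s i
      rw [← mem_QB]
      apply sum_mem
      intro p _
      rw [mem_QB]
      exact ((om_alg K _).mul (hβ _ _)).mul (by exact_mod_cast isAlgebraic_intCast (R := ℚ) (A := ℂ) (s p))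
    have hG1 : ∀ s ∈ G0, ∑ i, α i * Sv s i = 0 := by
      intro s hs
      have h3 : ∑ i, Sv s i * κ0 v i = 0 := by
        have h4 := ((hG0 s).mp hs).1 _ (v : Af × cSpan Rm).1.2
        rw [sum_pr] at h4
        rw [← h4]
        apply Finset.sum_congr rfl
        intro i _
        rw [Finset.sum_eq_single 0]
        · rw [h1]
          show Sv s i * (((v : Af × cSpan Rm).2 : Fin ((r + 1) * dg K) → ℂ) (pr i 0) / om K 0) = _
          simp only [Sv, hω, f1_pr, f2_pr, if_true]
          ring
        · intro h _ hh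
          rw [hAf _ (v : Af × cSpan Rm).1.2 _ (by rw [f2_pr]; exact hh), zero_mul]
        · intro h; exact absurd (Finset.mem_univ _) h
      have h5 := congrArg (fun z => ((φ z : QB) : ℂ)) h3
      simp only [map_sum, map_zero, ZeroMemClass.coe_zero] at h5
      rw [show ((∑ i, φ (Sv s i * κ0 v i) : QB) : ℂ) =
        ∑ i, ((φ (Sv s i * κ0 v i) : QB) : ℂ) from IntermediateField.coe_sum _ _] at h5
      rw [← h5]
      apply Finset.sum_congr rfl
      intro i _
      rw [phi_mul φ (hSalg s i)]
      ring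
    -- the selected points
    have hr1 := hrank α hα hα0
    have hVf : FiniteDimensional QB (Submodule.span QB (Set.range fun p : Fin N =>
        ∑ j, α j * ∑ ρ, x ρ j * y ρ p)) :=
      FiniteDimensional.span_of_finite QB (Set.finite_range _)
    obtain ⟨g, hg⟩ := sel (fun p : Fin N => ∑ j, α j * ∑ ρ, x ρ j * y ρ p)
      (s := 3 * (r + 1) ^ 2 + 1) hr1
    have hginj : Function.Injective g := fun a b hab => hg.injective (by
      show (fun p : Fin N => ∑ j, α j * ∑ ρ, x ρ j * y ρ p) (g a) =
        (fun p : Fin N => ∑ j, α j * ∑ ρ, x ρ j * y ρ p) (g b)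
      rw [hab])
    let T : Finset (Fin (N * dg K)) := (Finset.univ : Finset (Fin (3 * (r + 1) ^ 2 + 1) × Fin (dg K))).image
      fun kg => pr (g kg.1) kg.2
    have hprinj : Function.Injective (fun kg : Fin (3 * (r + 1) ^ 2 + 1) × Fin (dg K) =>
        (pr (g kg.1) kg.2 : Fin (N * dg K))) := by
      intro a b hab
      have e1 := congrArg f1 hab
      have e2 := congrArg f2 hab
      simp only [f1_pr, f2_pr] at e1 e2
      exact Prod.ext (hginj e1) e2
    have hT : T.card = (3 * (r + 1) ^ 2 + 1) * dg K := by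
      rw [Finset.card_image_of_injective _ hprinj]
      simp
    -- the map on `G0`
    choose n hn using fun (s : G0) (k : Fin (finrank ℤ Rm)) => hG2 s s.2 _ (hρ1 k)
    have hUadd : ∀ s s' : Fin (N * dg K) → ℤ, ∀ q, Uv (s + s') q = Uv s q + Uv s' q := by
      intro s s' q
      simp only [Uv, Pi.add_apply]
      rw [← Finset.sum_add_distrib]
      apply Finset.sum_congr rfl
      intro p _
      push_cast; ring
    let F : G0 →+ (Fin (finrank ℤ Rm) → ℤ) × ({p : Fin (N * dg K) // p ∉ T} → ℤ) :=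
      AddMonoidHom.mk' (fun s => (n s, fun p => (s : Fin (N * dg K) → ℤ) p)) (by
        intro s s'
        apply Prod.ext
        · funext k
          have h1 : ((n (s + s') k : ℤ) : ℂ) * (2 * Real.pi * Complex.I) =
              ((n s k + n s' k : ℤ) : ℂ) * (2 * Real.pi * Complex.I) := by
            rw [← hn]
            push_cast
            rw [add_mul ((n s k : ℤ) : ℂ) ((n s' k : ℤ) : ℂ), ← hn s k, ← hn s' k,
              ← Finset.sum_add_distrib]
            apply Finset.sum_congr rfl
            intro q _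
            rw [hUadd]; ring
          exact_mod_cast mul_right_cancel₀ hpi h1
        · funext p
          rfl)
    have hFinj : Function.Injective F := by
      refine (injective_iff_map_eq_zero F).mpr ?_
      intro s hs
      have e1 : n s = 0 := congrArg Prod.fst hs
      have e2 : ∀ p, p ∉ T → (s : Fin (N * dg K) → ℤ) p = 0 := fun p hp =>
        congrFun (congrArg Prod.snd hs) ⟨p, hp⟩
      have e3 : ∀ k, ∑ q, (ρ k q : ℂ) * Uv s q = 0 := by
        intro k
        rw [hn, e1]; simp
      have e4 : ∑ i, α i * ∑ p, (om K (f2 p) * ∑ ρ, x ρ i * y ρ (f1 p)) *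
          (((s : Fin (N * dg K) → ℤ) p : ℤ) : ℂ) = 0 := by
        simp only [hxY, mul_add, Finset.sum_add_distrib]
        rw [hG1 s s.2, zero_add]
        have e5 : ∀ i, α i * ∑ h, om K h * Uv s (pr i h) =
            ∑ k, ((φ (b k) : QB) : ℂ) * ∑ h, (ρ k (pr i h) : ℂ) * Uv s (pr i h) := by
          intro i
          rw [Finset.mul_sum]
          simp only [Finset.mul_sum]
          rw [Finset.sum_comm]
          apply Finset.sum_congr rfl
          intro h _
          rw [show α i * (om K h * Uv s (pr i h)) = (om K h * α i) * Uv s (pr i h) by ring, hαh,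
            Finset.sum_mul]
          apply Finset.sum_congr rfl
          intro k _
          ring
        simp only [e5]
        rw [Finset.sum_comm]
        apply Finset.sum_eq_zero
        intro k _
        rw [← Finset.mul_sum, ← sum_pr (fun q => (ρ k q : ℂ) * Uv s q), e3, mul_zero]
      -- rewrite as a relation between the selected points
      have e6 : ∑ k : Fin (3 * (r + 1) ^ 2 + 1),
          (∑ h, (((s : Fin (N * dg K) → ℤ) (pr (g k) h) : ℤ) : ℂ) * om K h) *
            (∑ j, α j * ∑ ρ, x ρ j * y ρ (g k)) = 0 := by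
        rw [← e4]
        have e7 : ∑ i, α i * ∑ p, (om K (f2 p) * ∑ ρ, x ρ i * y ρ (f1 p)) *
            (((s : Fin (N * dg K) → ℤ) p : ℤ) : ℂ) =
            ∑ p, (((s : Fin (N * dg K) → ℤ) p : ℤ) : ℂ) * om K (f2 p) *
              ∑ j, α j * ∑ ρ, x ρ j * y ρ (f1 p) := by
          simp only [Finset.mul_sum]
          rw [Finset.sum_comm]
          apply Finset.sum_congr rfl; intro p _
          apply Finset.sum_congr rfl; intro i _
          rw [Finset.sum_mul, Finset.mul_sum]
          apply Finset.sum_congr rfl; intro ρ _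
          ring
        rw [e7]
        have e8 : ∑ p, (((s : Fin (N * dg K) → ℤ) p : ℤ) : ℂ) * om K (f2 p) *
              ∑ j, α j * ∑ ρ, x ρ j * y ρ (f1 p) =
            ∑ p ∈ T, (((s : Fin (N * dg K) → ℤ) p : ℤ) : ℂ) * om K (f2 p) *
              ∑ j, α j * ∑ ρ, x ρ j * y ρ (f1 p) := by
          symm
          apply Finset.sum_subset (Finset.subset_univ _)
          intro p _ hp
          rw [e2 p hp]; simp
        rw [e8, Finset.sum_image (fun a _ b _ hab => hprinj hab), Fintype.sum_prod_type]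
        apply Finset.sum_congr rfl
        intro k _
        rw [Finset.sum_mul]
        apply Finset.sum_congr rfl
        intro h _
        rw [f1_pr, f2_pr]
      have e9 : ∀ k, tau K (fun h => (((s : Fin (N * dg K) → ℤ) (pr (g k) h) : ℤ) : ℚ)) = 0 := by
        intro k
        rw [Fintype.linearIndependent_iff] at hg
        have e10 := hg (fun k => ⟨∑ h, (((s : Fin (N * dg K) → ℤ) (pr (g k) h) : ℤ) : ℂ) * om K h, by
          apply sum_mem
          intro h _
          exact mul_mem (by rw [mem_QB]; exact_mod_cast isAlgebraic_intCast (R := ℚ) (A := ℂ) _)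
            (mem_QB.2 (om_alg K h))⟩) (by
          rw [← e6]
          apply Finset.sum_congr rfl
          intro k _
          rw [Algebra.smul_def]
          rfl) k
        have e11 := congrArg (fun z : QB => (z : ℂ)) e10
        apply Subtype.ext
        rw [tau_coe]
        push_cast
        exact e11
      apply Subtype.ext
      funext p
      by_cases hp : p ∈ T
      · obtain ⟨⟨k, h⟩, -, rfl⟩ := Finset.mem_image.1 hp
        have := congrFun (tau_eq_zero K (e9 k)) h
        simp only [Pi.zero_apply] at this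
        exact_mod_cast this
      · exact e2 p hp
    have hF2 : Function.Injective F.toIntLinearMap := hFinj
    have hF3 := LinearMap.finrank_le_finrank_of_injective hF2
    rw [Module.finrank_prod, Module.finrank_fintype_fun_eq_card,
      Module.finrank_fintype_fun_eq_card, Fintype.card_fin, Fintype.card_subtype_compl,
      Fintype.card_fin, Fintype.card_coe, hT] at hF3
    have hF4 : (3 * (r + 1) ^ 2 + 1) * dg K ≤ N * dg K := by
      rw [← hT]
      have := Finset.card_le_univ T
      rwa [Fintype.card_fin] at this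
    have hF5 : (3 * (r + 1) ^ 2 + 1) * dg K ≤ d1 + bb := by
      have e1 : finrank ℤ G0 ≤ d1 + (N * dg K - (3 * (r + 1) ^ 2 + 1) * dg K) := hF3
      omega
    have hF6 : c' * κ ≤ (r + 1) * κ := Nat.mul_le_mul_right _ hc2
    have hF7 : (r + 1) * κ ≤ 3 * (r + 1) ^ 2 * dg K := by
      rw [hκd]
      have : 2 * dg K + 1 ≤ 3 * dg K := by omega
      calc (r + 1) * ((r + 1) * (2 * dg K + 1)) ≤ (r + 1) * ((r + 1) * (3 * dg K)) := by gcongr
        _ = 3 * (r + 1) ^ 2 * dg K := by ring
    have hF8 : (3 * (r + 1) ^ 2 + 1) * dg K = 3 * (r + 1) ^ 2 * dg K + dg K := by ring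
    omega

end Pool.Agent.TH975.EP.SG
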